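import Mathlib

/-!
Clique-width, monadic second-order logic of graphs (quantification over vertices and vertex
sets), an encoding of finite graphs by binary words, and polynomial time decidability on a class.
-/

set_option autoImplicit false

namespace Pool.Agent.H76.CW

/-! ### Clique-width -/

/-- `k`-expressions: create a vertex with a label, disjoint union, add all edges between two
different labels, rename a label. -/
inductive KExpr (k : ℕ) : Type
  | vertex (i : Fin k) : KExpr k
  | union (a b : KExpr k) : KExpr k
  | join (i j : Fin k) (h : i ≠ j) (a : KExpr k) : KExpr k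
  | relabel (i j : Fin k) (a : KExpr k) : KExpr k

/-- The vertex set of the value of a `k`-expression. -/
def KExpr.V {k : ℕ} : KExpr k → Type
  | .vertex _ => Unit
  | .union a b => a.V ⊕ b.V
  | .join _ _ _ a => a.V
  | .relabel _ _ a => a.V

/-- The labels of the vertices of the value of a `k`-expression. -/
def KExpr.lab {k : ℕ} : (e : KExpr k) → e.V → Fin k
  | .vertex i => fun _ => i
  | .union a b => Sum.elim a.lab b.lab
  | .join _ _ _ a => a.lab
  | .relabel i j a => fun v => if a.lab v = i then j else a.lab v

/-- The graph that is the value of a `k`-expression. -/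
def KExpr.graph {k : ℕ} : (e : KExpr k) → SimpleGraph e.V
  | .vertex _ => ⊥
  | .union a b => SimpleGraph.fromRel (V := a.V ⊕ b.V) fun v w =>
      match v, w with
      | Sum.inl v, Sum.inl w => a.graph.Adj v w
      | Sum.inr v, Sum.inr w => b.graph.Adj v w
      | _, _ => False
  | .join i j _ a => SimpleGraph.fromRel (V := a.V) fun v w =>
      a.graph.Adj v w ∨ (a.lab v = i ∧ a.lab w = j)
  | .relabel _ _ a => a.graph

/-- The clique-width of a graph: the least `k` such that the graph is (isomorphic to) the value
of a `k`-expression, labels forgotten. -/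
noncomputable def cliqueWidth {V : Type} (G : SimpleGraph V) : ℕ :=
  sInf {k | ∃ e : KExpr k, Nonempty (e.graph ≃g G)}

/-! ### Monadic second-order logic -/

/-- `MSO k l` is the type of formulas of monadic second-order logic over the vocabulary with one
binary edge relation, with free vertex variables `0, …, k - 1` and free vertex set variables
`0, …, l - 1`. -/
inductive MSO : ℕ → ℕ → Type
  | adj {k l : ℕ} (i j : Fin k) : MSO k l
  | eq {k l : ℕ} (i j : Fin k) : MSO k l
  | mem {k l : ℕ} (i : Fin k) (X : Fin l) : MSO k l
  | neg {k l : ℕ} (φ : MSO k l) : MSO k l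
  | and {k l : ℕ} (φ ψ : MSO k l) : MSO k l
  | exVertex {k l : ℕ} (φ : MSO (k + 1) l) : MSO k l
  | exSet {k l : ℕ} (φ : MSO k (l + 1)) : MSO k l

/-- Satisfaction of a formula in a graph under an assignment of vertices and vertex sets. -/
def MSO.Sat {V : Type} (G : SimpleGraph V) :
    {k l : ℕ} → MSO k l → (Fin k → V) → (Fin l → Set V) → Prop
  | _, _, .adj i j, x, _ => G.Adj (x i) (x j)
  | _, _, .eq i j, x, _ => x i = x j
  | _, _, .mem i X, x, S => x i ∈ S X
  | _, _, .neg φ, x, S => ¬ φ.Sat G x S
  | _, _, .and φ ψ, x, S => φ.Sat G x S ∧ ψ.Sat G x S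
  | _, _, .exVertex φ, x, S => ∃ v : V, φ.Sat G (Fin.cons v x) S
  | _, _, .exSet φ, x, S => ∃ T : Set V, φ.Sat G x (Fin.cons T S)

/-- A graph satisfies a sentence. -/
def Models {V : Type} (G : SimpleGraph V) (φ : MSO 0 0) : Prop :=
  φ.Sat G (fun i => i.elim0) (fun i => i.elim0)

/-! ### Finite graphs and polynomial time -/

/-- Finite graphs, given as graphs with vertex set `Fin n`. -/
abbrev FinGraph : Type := Σ n : ℕ, SimpleGraph (Fin n)

open Classical in
/-- The encoding of a graph with vertex set `Fin n` by a binary word: `n` in unary, a delimiter,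
and then the adjacency matrix row by row. -/
noncomputable def encodeGraph (G : FinGraph) : List Bool :=
  List.replicate G.1 true ++ false ::
    (List.finRange G.1).flatMap fun i => (List.finRange G.1).map fun j => decide (G.2.Adj i j)

/-- `P` has a polynomial time solution on `C`: some Turing machine (Mathlib's `FinTM2`) that
halts after polynomially many steps on every input graph gives, on each graph of the
class `C`, the correct answer to the question whether the graph has property `P`. -/
def PolyTimeOn (C : Set FinGraph) (P : FinGraph → Prop) : Prop :=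
  ∃ f : FinGraph → Bool,
    Nonempty (Turing.TM2ComputableInPolyTime encodeGraph Computability.encodeBool f) ∧
    ∀ G ∈ C, (f G = true ↔ P G)

/-- A class of finite graphs is closed under isomorphism. -/
def IsoClosed (C : Set FinGraph) : Prop :=
  ∀ G ∈ C, ∀ G' : FinGraph, Nonempty (G.2 ≃g G'.2) → G' ∈ C

/-- Clique-width is bounded by `O(log n)` on `C`. -/
def LogBounded (C : Set FinGraph) : Prop :=
  ∃ c : ℝ, ∀ G ∈ C, 2 ≤ G.1 → (cliqueWidth G.2 : ℝ) ≤ c * Real.log G.1

end Pool.Agent.H76.CW
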