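import Mathlib
import Pool.Agent.H76.CW.Defs

/-!
A balanced cut lemma for `k`-expressions and a linear lower bound for the clique-width of
inner product graphs.
-/

set_option autoImplicit false

namespace Pool.Agent.H76.CW

lemma KExpr.finite {k : ℕ} (e : KExpr k) : Finite e.V := by
  induction e with
  | vertex i => exact inferInstanceAs (Finite Unit)
  | union a b iha ihb =>
    have := iha
    have := ihb
    exact inferInstanceAs (Finite (a.V ⊕ b.V))
  | join i j h a ih => exact ih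
  | relabel i j a ih => exact ih

lemma union_adj_ll {k : ℕ} (a b : KExpr k) (v w : a.V) :
    (KExpr.union a b).graph.Adj (Sum.inl v : a.V ⊕ b.V) (Sum.inl w : a.V ⊕ b.V) ↔
      a.graph.Adj v w := by
  show ((Sum.inl v : a.V ⊕ b.V) ≠ Sum.inl w ∧ (a.graph.Adj v w ∨ a.graph.Adj w v)) ↔ _
  constructor
  · rintro ⟨_, h | h⟩
    · exact h
    · exact h.symm
  · intro h
    exact ⟨fun h' => h.ne (Sum.inl.inj h'), Or.inl h⟩

lemma union_adj_rr {k : ℕ} (a b : KExpr k) (v w : b.V) :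
    (KExpr.union a b).graph.Adj (Sum.inr v : a.V ⊕ b.V) (Sum.inr w : a.V ⊕ b.V) ↔
      b.graph.Adj v w := by
  show ((Sum.inr v : a.V ⊕ b.V) ≠ Sum.inr w ∧ (b.graph.Adj v w ∨ b.graph.Adj w v)) ↔ _
  constructor
  · rintro ⟨_, h | h⟩
    · exact h
    · exact h.symm
  · intro h
    exact ⟨fun h' => h.ne (Sum.inr.inj h'), Or.inl h⟩

lemma union_adj_lr {k : ℕ} (a b : KExpr k) (v : a.V) (w : b.V) :
    ¬ (KExpr.union a b).graph.Adj (Sum.inl v : a.V ⊕ b.V) (Sum.inr w : a.V ⊕ b.V) := by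
  show ¬ ((Sum.inl v : a.V ⊕ b.V) ≠ Sum.inr w ∧ (False ∨ False))
  simp

lemma union_adj_rl {k : ℕ} (a b : KExpr k) (v : b.V) (w : a.V) :
    ¬ (KExpr.union a b).graph.Adj (Sum.inr v : a.V ⊕ b.V) (Sum.inl w : a.V ⊕ b.V) := by
  show ¬ ((Sum.inr v : a.V ⊕ b.V) ≠ Sum.inl w ∧ (False ∨ False))
  simp

lemma join_adj {k : ℕ} (i j : Fin k) (h : i ≠ j) (a : KExpr k) (v w : a.V) :
    (KExpr.join i j h a).graph.Adj v w ↔
      a.graph.Adj v w ∨ (a.lab v = i ∧ a.lab w = j) ∨ (a.lab w = i ∧ a.lab v = j) := by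
  show (v ≠ w ∧ ((a.graph.Adj v w ∨ (a.lab v = i ∧ a.lab w = j)) ∨
    (a.graph.Adj w v ∨ (a.lab w = i ∧ a.lab v = j)))) ↔ _
  constructor
  · rintro ⟨_, (h1 | h1) | (h1 | h1)⟩
    · exact Or.inl h1
    · exact Or.inr (Or.inl h1)
    · exact Or.inl h1.symm
    · exact Or.inr (Or.inr h1)
  · rintro (h1 | h1 | h1)
    · exact ⟨h1.ne, Or.inl (Or.inl h1)⟩
    · exact ⟨fun h2 => h (by rw [← h1.1, ← h1.2, h2]), Or.inl (Or.inr h1)⟩
    · exact ⟨fun h2 => h (by rw [← h1.1, ← h1.2, h2]), Or.inr (Or.inr h1)⟩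

/-- The data of a cut: vertices of `A` with the same colour have the same label and the same
neighbours outside of `A`. -/
def IsCut {k : ℕ} (e : KExpr k) (A : Set e.V) (c : e.V → Fin k) : Prop :=
  ∀ x ∈ A, ∀ y ∈ A, c x = c y →
    e.lab x = e.lab y ∧ ∀ z, z ∉ A → (e.graph.Adj x z ↔ e.graph.Adj y z)

lemma isCut_univ {k : ℕ} (e : KExpr k) : IsCut e Set.univ e.lab :=
  fun _ _ _ _ h => ⟨h, fun z hz => (hz trivial).elim⟩

lemma ncard_union_sum {α β : Type} [Finite α] [Finite β] (S : Set (α ⊕ β)) :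
    S.ncard = (Sum.inl ⁻¹' S : Set α).ncard + (Sum.inr ⁻¹' S : Set β).ncard := by
  have h : S = Sum.inl '' (Sum.inl ⁻¹' S) ∪ Sum.inr '' (Sum.inr ⁻¹' S) := by
    ext x
    cases x <;> simp
  conv_lhs => rw [h]
  rw [Set.ncard_union_eq, Set.ncard_image_of_injective _ Sum.inl_injective,
    Set.ncard_image_of_injective _ Sum.inr_injective]
  rw [Set.disjoint_left]
  rintro _ ⟨x, _, rfl⟩ ⟨y, _, h⟩
  exact Sum.inr_ne_inl h

lemma ncard_inter_inl {α β : Type} (S : Set (α ⊕ β)) (A : Set α) :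
    (S ∩ Sum.inl '' A).ncard = (Sum.inl ⁻¹' S ∩ A).ncard := by
  have hinter : S ∩ (Sum.inl '' A) = Sum.inl '' ((Sum.inl ⁻¹' S) ∩ A) := by
    ext x
    constructor
    · rintro ⟨hx, ⟨y, hy, rfl⟩⟩
      exact ⟨y, ⟨hx, hy⟩, rfl⟩
    · rintro ⟨y, ⟨hx, hy⟩, rfl⟩
      exact ⟨hx, ⟨y, hy, rfl⟩⟩
  rw [hinter, Set.ncard_image_of_injective _ Sum.inl_injective]

lemma ncard_inter_inr {α β : Type} (S : Set (α ⊕ β)) (A : Set β) :
    (S ∩ Sum.inr '' A).ncard = (Sum.inr ⁻¹' S ∩ A).ncard := by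
  have hinter : S ∩ (Sum.inr '' A) = Sum.inr '' ((Sum.inr ⁻¹' S) ∩ A) := by
    ext x
    constructor
    · rintro ⟨hx, ⟨y, hy, rfl⟩⟩
      exact ⟨y, ⟨hx, hy⟩, rfl⟩
    · rintro ⟨y, ⟨hx, hy⟩, rfl⟩
      exact ⟨hx, ⟨y, hy, rfl⟩⟩
  rw [hinter, Set.ncard_image_of_injective _ Sum.inr_injective]

lemma KExpr.exists_cut {k : ℕ} (e : KExpr k) (S : Set e.V) (t : ℕ) (ht : 1 ≤ t)
    (hS : t ≤ S.ncard) : ∃ (A : Set e.V) (c : e.V → Fin k),
      t ≤ (S ∩ A).ncard ∧ (S ∩ A).ncard ≤ 2 * t - 1 ∧ IsCut e A c := by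
  induction e with
  | vertex i =>
    have hfin : Finite (KExpr.vertex i).V := KExpr.finite _
    refine ⟨Set.univ, _, by simpa using hS, ?_, isCut_univ _⟩
    have h1 : S.ncard ≤ 1 := by
      rw [Set.ncard_le_one_iff]
      intro a b _ _
      exact (rfl : (() : Unit) = ())
    rw [Set.inter_univ]
    omega
  | union a b iha ihb =>
    have hfa : Finite a.V := a.finite
    have hfb : Finite b.V := b.finite
    have hfin : Finite (KExpr.union a b).V := KExpr.finite _
    have hcard : S.ncard = (Sum.inl ⁻¹' S : Set a.V).ncard + (Sum.inr ⁻¹' S : Set b.V).ncard :=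
      ncard_union_sum (α := a.V) (β := b.V) S
    by_cases ha : t ≤ (Sum.inl ⁻¹' S : Set a.V).ncard
    · obtain ⟨A, c, h1, h2, h3⟩ := iha _ ha
      have hinter := ncard_inter_inl (α := a.V) (β := b.V) S A
      refine ⟨(Sum.inl '' A : Set (a.V ⊕ b.V)), Sum.elim c b.lab,
        h1.trans_eq hinter.symm, hinter.trans_le h2, ?_⟩
      · rintro _ ⟨x, hx, rfl⟩ _ ⟨y, hy, rfl⟩ hc
        obtain ⟨h4, h5⟩ := h3 x hx y hy hc
        refine ⟨h4, ?_⟩
        rintro (z | z) hz
        · have hz' : z ∉ A := fun h => hz ⟨z, h, rfl⟩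
          exact (union_adj_ll a b x z).trans ((h5 z hz').trans (union_adj_ll a b y z).symm)
        · exact ⟨fun h => (union_adj_lr a b x z h).elim, fun h => (union_adj_lr a b y z h).elim⟩
    · by_cases hb : t ≤ (Sum.inr ⁻¹' S : Set b.V).ncard
      · obtain ⟨A, c, h1, h2, h3⟩ := ihb _ hb
        have hinter := ncard_inter_inr (α := a.V) (β := b.V) S A
        refine ⟨(Sum.inr '' A : Set (a.V ⊕ b.V)), Sum.elim a.lab c,
          h1.trans_eq hinter.symm, hinter.trans_le h2, ?_⟩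
        · rintro _ ⟨x, hx, rfl⟩ _ ⟨y, hy, rfl⟩ hc
          obtain ⟨h4, h5⟩ := h3 x hx y hy hc
          refine ⟨h4, ?_⟩
          rintro (z | z) hz
          · exact ⟨fun h => (union_adj_rl a b x z h).elim, fun h => (union_adj_rl a b y z h).elim⟩
          · have hz' : z ∉ A := fun h => hz ⟨z, h, rfl⟩
            exact (union_adj_rr a b x z).trans ((h5 z hz').trans (union_adj_rr a b y z).symm)
      · refine ⟨Set.univ, _, by rw [Set.inter_univ]; exact hS, ?_, isCut_univ _⟩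
        rw [Set.inter_univ, hcard]
        omega
  | join i j h a ih =>
    obtain ⟨A, c, h1, h2, h3⟩ := ih S hS
    refine ⟨A, c, h1, h2, ?_⟩
    intro x hx y hy hc
    obtain ⟨h4, h5⟩ := h3 x hx y hy hc
    refine ⟨h4, fun z hz => ?_⟩
    refine (join_adj i j h a x z).trans (Iff.trans ?_ (join_adj i j h a y z).symm)
    rw [h5 z hz, h4]
  | relabel i j a ih =>
    obtain ⟨A, c, h1, h2, h3⟩ := ih S hS
    refine ⟨A, c, h1, h2, ?_⟩
    intro x hx y hy hc
    obtain ⟨h4, h5⟩ := h3 x hx y hy hc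
    refine ⟨?_, h5⟩
    show (if a.lab x = i then j else a.lab x) = (if a.lab y = i then j else a.lab y)
    rw [h4]

/-- The balanced cut lemma for a graph of clique-width at most `k`. -/
lemma exists_cut {k : ℕ} {V : Type} (G : SimpleGraph V) (e : KExpr k) (φ : e.graph ≃g G)
    (S : Set V) (t : ℕ) (ht : 1 ≤ t) (hS : t ≤ S.ncard) :
    ∃ (A : Set V) (c : V → Fin k), t ≤ (S ∩ A).ncard ∧ (S ∩ A).ncard ≤ 2 * t - 1 ∧
      ∀ x ∈ A, ∀ y ∈ A, c x = c y → ∀ z, z ∉ A → (G.Adj x z ↔ G.Adj y z) := by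
  have hcard : ∀ T : Set V, (φ ⁻¹' T).ncard = T.ncard := fun T =>
    Set.ncard_preimage_of_injective_subset_range φ.injective (by
      rw [φ.surjective.range_eq]; exact Set.subset_univ _)
  obtain ⟨A, c, h1, h2, h3⟩ := e.exists_cut (φ ⁻¹' S) t ht (by rw [hcard]; exact hS)
  have hinter : φ ⁻¹' S ∩ A = φ ⁻¹' (S ∩ φ.symm ⁻¹' A) := by
    ext x
    simp
  refine ⟨φ.symm ⁻¹' A, fun v => c (φ.symm v), ?_, ?_, ?_⟩
  · rw [hinter, hcard] at h1; exact h1
  · rw [hinter, hcard] at h2; exact h2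
  · intro x hx y hy hc z hz
    have h4 := (h3 _ hx _ hy hc).2 (φ.symm z) hz
    have e1 : e.graph.Adj (φ.symm x) (φ.symm z) ↔ G.Adj x z := φ.symm.map_adj_iff
    have e2 : e.graph.Adj (φ.symm y) (φ.symm z) ↔ G.Adj y z := φ.symm.map_adj_iff
    rw [← e1, ← e2]
    exact h4

/-- The inner product graph on the vectors of length `m` over the field with two elements. -/
def ip (m : ℕ) : SimpleGraph (Fin m → ZMod 2) := SimpleGraph.fromRel fun x y => x ⬝ᵥ y = 1

lemma ip_adj {m : ℕ} (x y : Fin m → ZMod 2) : (ip m).Adj x y ↔ x ≠ y ∧ x ⬝ᵥ y = 1 := by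
  show (x ≠ y ∧ (x ⬝ᵥ y = 1 ∨ y ⬝ᵥ x = 1)) ↔ _
  rw [dotProduct_comm y x, or_self]

/-- The vectors orthogonal to `B`. -/
def perp {m : ℕ} (B : Set (Fin m → ZMod 2)) : Set (Fin m → ZMod 2) := {x | ∀ z ∈ B, x ⬝ᵥ z = 0}

lemma card_perp {m : ℕ} (B : Set (Fin m → ZMod 2)) : (perp B).ncard * B.ncard ≤ 2 ^ m := by
  have : Fact (Nat.Prime 2) := ⟨Nat.prime_two⟩
  let U : Submodule (ZMod 2) (Fin m → ZMod 2) := Submodule.span (ZMod 2) B
  have h1 : B.ncard ≤ 2 ^ (Module.finrank (ZMod 2) U) := by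
    have h2 : B ⊆ (U : Set (Fin m → ZMod 2)) := Submodule.subset_span
    have h3 := Set.ncard_le_ncard h2 (Set.toFinite _)
    have h4 : (U : Set (Fin m → ZMod 2)).ncard = 2 ^ (Module.finrank (ZMod 2) U) := by
      have := Module.natCard_eq_pow_finrank (K := ZMod 2) (V := U)
      rw [Nat.card_zmod] at this
      exact this
    omega
  have h5 : (perp B).ncard ≤ 2 ^ (Module.finrank (ZMod 2) U.dualAnnihilator) := by
    have h6 : Nat.card U.dualAnnihilator = 2 ^ (Module.finrank (ZMod 2) U.dualAnnihilator) := by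
      have := Module.natCard_eq_pow_finrank (K := ZMod 2) (V := U.dualAnnihilator)
      rw [Nat.card_zmod] at this
      exact this
    rw [← h6]
    have hmem : ∀ x ∈ perp B, dotProductEquiv (ZMod 2) (Fin m) x ∈ U.dualAnnihilator := by
      intro x hx
      rw [Submodule.mem_dualAnnihilator]
      intro w hw
      induction hw using Submodule.span_induction with
      | mem z hz => exact hx z hz
      | zero => exact map_zero _
      | add a b _ _ ha hb => rw [map_add, ha, hb, add_zero]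
      | smul r a _ ha => rw [map_smul, ha, smul_zero]
    have : Finite (Module.Dual (ZMod 2) (Fin m → ZMod 2)) :=
      Finite.of_injective _ (DFunLike.coe_injective (F := Module.Dual (ZMod 2) (Fin m → ZMod 2)))
    have : Finite U.dualAnnihilator := Finite.of_injective _ Subtype.val_injective
    refine Nat.card_le_card_of_injective (α := perp B)
      (fun x => ⟨dotProductEquiv (ZMod 2) (Fin m) x.1, hmem x.1 x.2⟩) ?_
    intro x y hxy
    apply Subtype.ext
    exact (dotProductEquiv (ZMod 2) (Fin m)).injective (congrArg Subtype.val hxy)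
  have h7 := Subspace.finrank_add_finrank_dualAnnihilator_eq U
  rw [Module.finrank_fin_fun] at h7
  calc (perp B).ncard * B.ncard
      ≤ 2 ^ (Module.finrank (ZMod 2) U.dualAnnihilator) * 2 ^ (Module.finrank (ZMod 2) U) :=
        Nat.mul_le_mul h5 h1
    _ = 2 ^ m := by rw [← pow_add]; congr 1; omega

/-- Every expression for a graph that contains the inner product graph as an induced subgraph
uses many labels. -/
lemma ip_lower {k m : ℕ} {V : Type} [Finite V] (G : SimpleGraph V) (e : KExpr k)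
    (φ : e.graph ≃g G) (ψ : ip m ↪g G) : 2 ^ m ≤ 9 * k + 1 := by
  classical
  set N := 2 ^ m with hN
  have hNpos : 0 < N := by positivity
  let S : Set V := Set.range ψ
  have hcardS : S.ncard = N := by
    have h := Set.ncard_image_of_injective (Set.univ : Set (Fin m → ZMod 2)) ψ.injective
    rw [Set.image_univ] at h
    simp only [S]
    rw [h, Set.ncard_univ, Nat.card_eq_fintype_card, Fintype.card_fun, ZMod.card, Fintype.card_fin]
  obtain ⟨A, c, h1, h2, h3⟩ := exists_cut G e φ S ((N + 2) / 3) (by omega) (by omega)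
  -- the two sides, pulled back to the vectors
  let A' : Set (Fin m → ZMod 2) := ψ ⁻¹' A
  have hA' : A'.ncard = (S ∩ A).ncard := by
    have : S ∩ A = ψ '' A' := by
      ext x
      constructor
      · rintro ⟨⟨y, rfl⟩, hy⟩; exact ⟨y, hy, rfl⟩
      · rintro ⟨y, hy, rfl⟩; exact ⟨⟨y, rfl⟩, hy⟩
    rw [this, Set.ncard_image_of_injective _ ψ.injective]
  have hB' : (A'ᶜ).ncard = N - A'.ncard := by
    have h := Set.ncard_add_ncard_compl A'
    rw [Nat.card_eq_fintype_card, Fintype.card_fun, ZMod.card, Fintype.card_fin] at h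
    omega
  have hperp := card_perp (A'ᶜ)
  -- the number of vectors in `A'` is at most `k * |perp|`
  have hle : A'.ncard ≤ (perp (A'ᶜ)).ncard * k := by
    have hA'f : A'.toFinset.card = A'.ncard := (Set.ncard_eq_toFinset_card' A').symm
    have hkey := Finset.card_le_mul_card_image_of_maps_to (s := A'.toFinset)
      (t := (Finset.univ : Finset (Fin k))) (f := fun x => c (ψ x)) (fun _ _ => Finset.mem_univ _)
      (perp (A'ᶜ)).ncard (by
        intro b _
        rcases Finset.eq_empty_or_nonempty (A'.toFinset.filter fun x => c (ψ x) = b) with h | h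
        · rw [h]; simp
        · obtain ⟨x₀, hx₀⟩ := h
          obtain ⟨hx₀A, hx₀c⟩ := Finset.mem_filter.1 hx₀
          rw [Set.mem_toFinset] at hx₀A
          have hpf : (perp (A'ᶜ)).toFinset.card = (perp (A'ᶜ)).ncard :=
            (Set.ncard_eq_toFinset_card' _).symm
          rw [← hpf]
          refine Finset.card_le_card_of_injOn (fun x => x - x₀) ?_ ?_
          · intro x hx
            obtain ⟨hxA, hxc⟩ := Finset.mem_filter.1 (Finset.mem_coe.1 hx)
            rw [Set.mem_toFinset] at hxA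
            rw [Finset.mem_coe, Set.mem_toFinset]
            intro z hz
            have h4 := h3 (ψ x) hxA (ψ x₀) hx₀A (by rw [hxc, hx₀c]) (ψ z) hz
            have e1 : G.Adj (ψ x) (ψ z) ↔ (ip m).Adj x z := ψ.map_adj_iff
            have e2 : G.Adj (ψ x₀) (ψ z) ↔ (ip m).Adj x₀ z := ψ.map_adj_iff
            rw [e1, e2, ip_adj, ip_adj] at h4
            have n1 : x ≠ z := fun h => hz (h ▸ hxA)
            have n2 : x₀ ≠ z := fun h => hz (h ▸ hx₀A)
            simp only [n1, n2, ne_eq, not_false_iff, true_and] at h4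
            rw [sub_dotProduct]
            have hz2 : ∀ a b : ZMod 2, (a = 1 ↔ b = 1) → a - b = 0 := by decide
            exact hz2 _ _ h4
          · intro x _ y _ hxy
            exact sub_left_injective hxy)
    rw [hA'f, Finset.card_univ, Fintype.card_fin] at hkey
    exact hkey
  -- arithmetic
  have h4 : 3 * A'.ncard ≥ N := by omega
  have h5 : 3 * (A'ᶜ).ncard + 1 ≥ N := by omega
  have h6 : A'.ncard * (A'ᶜ).ncard ≤ N * k := by
    calc A'.ncard * (A'ᶜ).ncard ≤ ((perp (A'ᶜ)).ncard * k) * (A'ᶜ).ncard :=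
          Nat.mul_le_mul_right _ hle
      _ = ((perp (A'ᶜ)).ncard * (A'ᶜ).ncard) * k := by ring
      _ ≤ N * k := Nat.mul_le_mul_right _ hperp
  have h7 : N * (N - 1) ≤ N * (9 * k) := by
    have h8 : N * (N - 1) ≤ (3 * A'.ncard) * (3 * (A'ᶜ).ncard) :=
      Nat.mul_le_mul h4 (by omega)
    have h9 : (3 * A'.ncard) * (3 * (A'ᶜ).ncard) = 9 * (A'.ncard * (A'ᶜ).ncard) := by ring
    have h10 : N * (9 * k) = 9 * (N * k) := by ring
    rw [h9] at h8
    rw [h10]
    omega
  have h11 := Nat.le_of_mul_le_mul_left h7 hNpos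
  omega

/-- `G` is represented by an expression in which the label of every vertex is its name. -/
def Rep (k n : ℕ) (G : SimpleGraph (Fin n)) : Prop :=
  ∃ (e : KExpr k) (φ : e.graph ≃g G), ∀ v, (e.lab v : ℕ) = (φ v : ℕ)

lemma rep_bot (k n : ℕ) (hn : n + 1 ≤ k) : Rep k (n + 1) ⊥ := by
  induction n with
  | zero =>
    refine ⟨KExpr.vertex ⟨0, by omega⟩, ⟨(Equiv.ofUnique Unit (Fin 1)), ?_⟩, ?_⟩
    · intro v w
      exact Iff.rfl
    · intro v
      have : (Equiv.ofUnique Unit (Fin 1)) v = 0 := Subsingleton.elim _ _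
      show 0 = (((Equiv.ofUnique Unit (Fin 1)) v : Fin 1) : ℕ)
      rw [this]
      rfl
  | succ n ih =>
    obtain ⟨e, φ, hφ⟩ := ih (by omega)
    let ψ : (e.V ⊕ Unit) ≃ Fin (n + 2) :=
      (Equiv.sumCongr φ.toEquiv (Equiv.ofUnique Unit (Fin 1))).trans finSumFinEquiv
    have hψl : ∀ v : e.V, ψ (Sum.inl v) = (φ v).castSucc := fun v => rfl
    have hψr : ∀ u : Unit, ψ (Sum.inr u) = Fin.last (n + 1) := fun u => rfl
    refine ⟨KExpr.union e (KExpr.vertex ⟨n + 1, by omega⟩), ⟨ψ, ?_⟩, ?_⟩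
    · intro v w
      constructor
      · intro h; exact h.elim
      · intro h
        rcases v with v | v <;> rcases w with w | w
        · have h1 := (union_adj_ll e (KExpr.vertex ⟨n + 1, by omega⟩) v w).1 h
          have h2 : (⊥ : SimpleGraph (Fin (n + 1))).Adj (φ v) (φ w) := φ.map_adj_iff.2 h1
          exact h2.elim
        · exact (union_adj_lr e (KExpr.vertex ⟨n + 1, by omega⟩) v w h).elim
        · exact (union_adj_rl e (KExpr.vertex ⟨n + 1, by omega⟩) v w h).elim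
        · have h1 := (union_adj_rr e (KExpr.vertex ⟨n + 1, by omega⟩) v w).1 h
          exact h1.elim
    · rintro (v | v)
      · exact hφ v
      · rfl

lemma rep_edge {k n : ℕ} {G : SimpleGraph (Fin n)} (hG : Rep k n G) (hk : n ≤ k) {a b : Fin n}
    (hab : a ≠ b) (G' : SimpleGraph (Fin n))
    (hG' : ∀ x y, G'.Adj x y ↔ G.Adj x y ∨ (x = a ∧ y = b) ∨ (y = a ∧ x = b)) : Rep k n G' := by
  obtain ⟨e, φ, hφ⟩ := hG
  have hne : (⟨a.1, by omega⟩ : Fin k) ≠ ⟨b.1, by omega⟩ := by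
    intro h
    exact hab (Fin.ext (Fin.mk.inj h))
  have hlab : ∀ (v : e.V) (c : Fin n), e.lab v = (⟨c.1, by omega⟩ : Fin k) ↔ φ v = c := by
    intro v c
    rw [Fin.ext_iff, Fin.ext_iff, hφ]
  have key : ∀ v w : e.V, G'.Adj (φ v) (φ w) ↔
      (e.graph.Adj v w ∨ (e.lab v = (⟨a.1, by omega⟩ : Fin k) ∧ e.lab w = ⟨b.1, by omega⟩) ∨
        (e.lab w = (⟨a.1, by omega⟩ : Fin k) ∧ e.lab v = ⟨b.1, by omega⟩)) := by
    intro v w
    rw [hlab, hlab, hlab, hlab, hG']
    have h1 : G.Adj (φ v) (φ w) ↔ e.graph.Adj v w := φ.map_adj_iff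
    rw [← h1]
  exact ⟨KExpr.join ⟨a.1, by omega⟩ ⟨b.1, by omega⟩ hne e, ⟨φ.toEquiv, fun {v w} =>
    (key v w).trans (join_adj _ _ hne e v w).symm⟩, hφ⟩

lemma rep_all {k n : ℕ} (hk : n + 1 ≤ k) (G : SimpleGraph (Fin (n + 1))) : Rep k (n + 1) G := by
  classical
  have key : ∀ s : Finset (Fin (n + 1) × Fin (n + 1)),
      Rep k (n + 1) (SimpleGraph.fromRel fun a b => (a, b) ∈ s) := by
    intro s
    induction s using Finset.induction_on with
    | empty =>
      have h : (SimpleGraph.fromRel fun a b => (a, b) ∈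
          (∅ : Finset (Fin (n + 1) × Fin (n + 1)))) = ⊥ := by
        ext a b
        simp
      rw [h]
      exact rep_bot k n hk
    | insert p s hp ih =>
      obtain ⟨a, b⟩ := p
      by_cases hab : a = b
      · have h : (SimpleGraph.fromRel fun x y => (x, y) ∈ insert (a, b) s) =
            SimpleGraph.fromRel fun x y => (x, y) ∈ s := by
          ext x y
          simp only [SimpleGraph.fromRel_adj, Finset.mem_insert, Prod.mk.injEq]
          constructor
          · rintro ⟨h1, (⟨h2, h3⟩ | h2) | (⟨h2, h3⟩ | h2)⟩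
            · exact (h1 (by rw [h2, h3, hab])).elim
            · exact ⟨h1, Or.inl h2⟩
            · exact (h1 (by rw [h2, h3, hab])).elim
            · exact ⟨h1, Or.inr h2⟩
          · rintro ⟨h1, h2 | h2⟩
            · exact ⟨h1, Or.inl (Or.inr h2)⟩
            · exact ⟨h1, Or.inr (Or.inr h2)⟩
        rw [h]; exact ih
      · refine rep_edge ih (by omega) hab _ ?_
        intro x y
        simp only [SimpleGraph.fromRel_adj, Finset.mem_insert, Prod.mk.injEq]
        constructor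
        · rintro ⟨h1, (⟨h2, h3⟩ | h2) | (⟨h2, h3⟩ | h2)⟩
          · exact Or.inr (Or.inl ⟨h2, h3⟩)
          · exact Or.inl ⟨h1, Or.inl h2⟩
          · exact Or.inr (Or.inr ⟨h2, h3⟩)
          · exact Or.inl ⟨h1, Or.inr h2⟩
        · rintro (⟨h1, h2 | h2⟩ | ⟨h2, h3⟩ | ⟨h2, h3⟩)
          · exact ⟨h1, Or.inl (Or.inr h2)⟩
          · exact ⟨h1, Or.inr (Or.inr h2)⟩
          · exact ⟨fun h => hab (by rw [← h2, ← h3, h]), Or.inl (Or.inl ⟨h2, h3⟩)⟩
          · exact ⟨fun h => hab (by rw [← h2, ← h3, h]), Or.inr (Or.inl ⟨h2, h3⟩)⟩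
  have h : (SimpleGraph.fromRel fun a b => (a, b) ∈
      (Finset.univ.filter fun p : Fin (n + 1) × Fin (n + 1) => G.Adj p.1 p.2)) = G := by
    ext a b
    simp only [SimpleGraph.fromRel_adj, Finset.mem_filter, Finset.mem_univ, true_and]
    constructor
    · rintro ⟨_, h | h⟩
      · exact h
      · exact h.symm
    · intro h
      exact ⟨h.ne, Or.inl h⟩
  rw [← h]
  exact key _

/-- Every finite nonempty graph is the value of an expression, so that its clique-width is
attained. -/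
lemma exists_kExpr {n : ℕ} (G : SimpleGraph (Fin (n + 1))) :
    ∃ e : KExpr (cliqueWidth G), Nonempty (e.graph ≃g G) := by
  obtain ⟨e, φ, _⟩ := rep_all (le_refl (n + 1)) G
  exact Nat.sInf_mem (s := {k | ∃ e : KExpr k, Nonempty (e.graph ≃g G)}) ⟨_, e, ⟨φ⟩⟩

end Pool.Agent.H76.CW
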