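import Mathlib

/-!
Functions computed by finite automata are computed by Turing machines in polynomial time.
-/

set_option autoImplicit false

open Turing StateTransition

namespace Pool.Agent.H76.CW

section

variable {σ : Type} [Fintype σ] (s₀ : σ) (δ : σ → Bool → σ) (out : σ → Bool)

/-- A two-stack machine that reads its input with a finite automaton and then writes one
output symbol. -/
@[reducible] def autoTM : FinTM2 where
  K := Bool
  k₀ := false
  k₁ := true
  Γ _ := Bool
  Λ := Unit
  main := ()
  σ := σ × Bool
  initialState := (s₀, false)
  m _ := TM2.Stmt.pop false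
    (fun s o => match o with
      | none => (s.1, true)
      | some a => (δ s.1 a, false))
    (TM2.Stmt.branch (fun s => s.2)
      (TM2.Stmt.push true (fun s => out s.1)
        (TM2.Stmt.load (fun _ => (s₀, false)) TM2.Stmt.halt))
      (TM2.Stmt.goto fun _ => ()))

/-- The two stacks. -/
def twoStk (l l' : List Bool) : Bool → List Bool
  | false => l
  | true => l'

/-- Configurations while reading the input. -/
def autoCfg (s : σ) (l : List Bool) : (autoTM s₀ δ out).Cfg :=
  (⟨some (), (s, false), twoStk l []⟩ : TM2.Cfg (fun _ : Bool => Bool) Unit (σ × Bool))

/-- The final configuration. -/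
def autoEnd (b : Bool) : (autoTM s₀ δ out).Cfg :=
  (⟨none, (s₀, false), twoStk [] [b]⟩ : TM2.Cfg (fun _ : Bool => Bool) Unit (σ × Bool))

lemma auto_step_cons (s : σ) (a : Bool) (l : List Bool) :
    (autoTM s₀ δ out).step (autoCfg s₀ δ out s (a :: l)) =
      some (autoCfg s₀ δ out (δ s a) l) := by
  have h : Function.update (twoStk (a :: l) []) false l = twoStk l [] := by
    funext k
    cases k <;> simp [twoStk]
  simp only [FinTM2.step, autoCfg]
  show some (TM2.Cfg.mk _ _ (Function.update (twoStk (a :: l) []) false l)) = _
  rw [h]
  rfl

lemma auto_step_nil (s : σ) :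
    (autoTM s₀ δ out).step (autoCfg s₀ δ out s []) = some (autoEnd s₀ δ out (out s)) := by
  have h : Function.update (Function.update (twoStk [] []) false []) true [out s] =
      twoStk [] [out s] := by
    funext k
    cases k <;> simp [twoStk]
  simp only [FinTM2.step, autoCfg, autoEnd]
  show some (TM2.Cfg.mk _ _ (Function.update (Function.update (twoStk [] []) false []) true
    [out s])) = _
  rw [h]
  rfl

lemma auto_iterate (l : List Bool) (s : σ) :
    (flip bind (autoTM s₀ δ out).step)^[l.length + 1] (some (autoCfg s₀ δ out s l)) =
      some (autoEnd s₀ δ out (out (l.foldl δ s))) := by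
  induction l generalizing s with
  | nil =>
    simp only [List.length_nil, Nat.zero_add, Function.iterate_one, List.foldl_nil]
    exact auto_step_nil s₀ δ out s
  | cons a l ih =>
    rw [List.length_cons, Function.iterate_succ_apply]
    have h : flip bind (autoTM s₀ δ out).step (some (autoCfg s₀ δ out s (a :: l))) =
        some (autoCfg s₀ δ out (δ s a) l) := auto_step_cons s₀ δ out s a l
    rw [h, ih, List.foldl_cons]

lemma auto_init (l : List Bool) : initList (autoTM s₀ δ out) l = autoCfg s₀ δ out s₀ l := by
  unfold initList autoCfg
  have : (fun k => @dite (List Bool) (k = false) (instDecidableEqBool k false)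
      (fun _ => l) fun _ => []) = twoStk l [] := by
    funext k
    cases k <;> simp [twoStk]
  show TM2.Cfg.mk _ _ (fun k => @dite (List Bool) (k = false) (instDecidableEqBool k false)
      (fun _ => l) fun _ => []) = _
  rw [this]

lemma auto_halt (b : Bool) : haltList (autoTM s₀ δ out) [b] = autoEnd s₀ δ out b := by
  unfold haltList autoEnd
  have : (fun k => @dite (List Bool) (k = true) (instDecidableEqBool k true)
      (fun _ => [b]) fun _ => []) = twoStk [] [b] := by
    funext k
    cases k <;> simp [twoStk]
  show TM2.Cfg.mk _ _ (fun k => @dite (List Bool) (k = true) (instDecidableEqBool k true)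
      (fun _ => [b]) fun _ => []) = _
  rw [this]

/-- A function computed by a finite automaton is computable in polynomial (linear) time. -/
noncomputable def autoComputable {α : Type} (ea : α → List Bool) (f : α → Bool)
    (hf : ∀ a, f a = out ((ea a).foldl δ s₀)) :
    TM2ComputableInPolyTime ea Computability.encodeBool f where
  tm := autoTM s₀ δ out
  inputAlphabet := Equiv.refl Bool
  outputAlphabet := Equiv.refl Bool
  time := Polynomial.X + 1
  outputsFun := fun a =>
    { steps := (ea a).length + 1
      evals_in_steps := by
        have h := auto_iterate s₀ δ out (ea a) s₀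
        have h0 : List.map (Equiv.refl Bool).invFun (ea a) = ea a := List.map_id _
        have h1 : initList (autoTM s₀ δ out) (List.map (Equiv.refl Bool).invFun (ea a)) =
            autoCfg s₀ δ out s₀ (ea a) :=
          (congrArg (initList (autoTM s₀ δ out)) h0).trans (auto_init s₀ δ out (ea a))
        have h2 : Option.map (haltList (autoTM s₀ δ out)) (some (List.map
            (Equiv.refl Bool).invFun (Computability.encodeBool (f a)))) =
            some (autoEnd s₀ δ out (out ((ea a).foldl δ s₀))) := by
          rw [← hf]
          exact congrArg some (auto_halt s₀ δ out (f a))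
        exact (congrArg _ (congrArg some h1)).trans (h.trans h2.symm)
      steps_le_m := by simp }

end

end Pool.Agent.H76.CW
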