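import Mathlib
import Pool.Agent.H76.CW.Defs
import Pool.Agent.H76.CW.Machine

/-!
The encoding of graphs is injective; properties that are eventually constant on a class have a
polynomial time solution on the class; there are countably many formulas.
-/

set_option autoImplicit false

namespace Pool.Agent.H76.CW

open Classical in
/-- The adjacency matrix, row by row. -/
noncomputable def rows (G : FinGraph) : List Bool :=
  (List.finRange G.1).flatMap fun i => (List.finRange G.1).map fun j => decide (G.2.Adj i j)

lemma encodeGraph_eq (G : FinGraph) :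
    encodeGraph G = List.replicate G.1 true ++ false :: rows G := rfl

lemma length_encodeGraph (G : FinGraph) : (encodeGraph G).length = G.1 + 1 + G.1 * G.1 := by
  rw [encodeGraph_eq]
  simp only [rows, List.length_append, List.length_replicate, List.length_cons,
    List.length_flatMap, List.length_map, List.length_finRange]
  simp
  ring

lemma replicate_append_inj {a b : ℕ} {l l' : List Bool}
    (h : List.replicate a true ++ false :: l = List.replicate b true ++ false :: l') :
    a = b ∧ l = l' := by
  induction a generalizing b with
  | zero =>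
    cases b with
    | zero => simpa using h
    | succ b => simp [List.replicate_succ] at h
  | succ a ih =>
    cases b with
    | zero => simp [List.replicate_succ] at h
    | succ b =>
      simp only [List.replicate_succ, List.cons_append, List.cons.injEq, true_and] at h
      obtain ⟨h1, h2⟩ := ih h
      exact ⟨by rw [h1], h2⟩

lemma flatMap_inj {α β γ : Type} (L : List α) (K : List β) (f g : α → β → γ)
    (h : (L.flatMap fun i => K.map fun j => f i j) = (L.flatMap fun i => K.map fun j => g i j)) :
    ∀ i ∈ L, ∀ j ∈ K, f i j = g i j := by
  induction L with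
  | nil => intro i hi; simp at hi
  | cons a L ih =>
    simp only [List.flatMap_cons] at h
    have h1 := List.append_inj h (by simp)
    intro i hi j hj
    rcases List.mem_cons.1 hi with rfl | hi
    · exact List.map_inj_left.1 h1.1 j hj
    · exact ih h1.2 i hi j hj

lemma encodeGraph_injective : Function.Injective encodeGraph := by
  classical
  rintro ⟨n, G⟩ ⟨m, H⟩ h
  rw [encodeGraph_eq, encodeGraph_eq] at h
  obtain ⟨h1, h2⟩ := replicate_append_inj h
  simp only at h1
  subst h1
  have h3 := flatMap_inj (List.finRange n) (List.finRange n)
    (fun i j => decide (G.Adj i j)) (fun i j => decide (H.Adj i j)) h2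
  have h4 : G = H := by
    ext i j
    have := h3 i (List.mem_finRange i) j (List.mem_finRange j)
    simpa using this
  rw [h4]

/-- If a property is constant on all but the small graphs of a class, then it has a polynomial
time solution on the class. -/
theorem polyTimeOn_of_eventually {C : Set FinGraph} {P : FinGraph → Prop} (N : ℕ) (b : Prop)
    (h : ∀ G ∈ C, N ≤ G.1 → (P G ↔ b)) : PolyTimeOn C P := by
  classical
  let L : ℕ := N + 1 + N * N
  let σ := {l : List Bool // l.length ≤ L}
  have hfin : Finite σ := (List.finite_length_le Bool L).to_subtype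
  have hfty : Fintype σ := Fintype.ofFinite σ
  let s₀ : σ := ⟨[], Nat.zero_le _⟩
  let δ : σ → Bool → σ := fun s a =>
    if h : s.1.length < L then ⟨s.1 ++ [a], by simpa using h⟩ else s
  let out : σ → Bool := fun s =>
    if s.1.length < L then decide (∃ G : FinGraph, encodeGraph G = s.1 ∧ P G) else decide b
  have hfold : ∀ (l : List Bool) (s : σ),
      (l.foldl δ s).1 = (s.1 ++ l).take L := by
    intro l
    induction l with
    | nil =>
      intro s
      simp only [List.foldl_nil, List.append_nil]
      exact (List.take_of_length_le s.2).symm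
    | cons a l ih =>
      intro s
      rw [List.foldl_cons, ih]
      by_cases hs : s.1.length < L
      · have : (δ s a).1 = s.1 ++ [a] := by simp only [δ, dif_pos hs]
        rw [this, List.append_assoc]
        rfl
      · have hs' : s.1.length = L := by have := s.2; omega
        have : (δ s a).1 = s.1 := by simp only [δ, dif_neg hs]
        have e1 : ∀ l' : List Bool, List.take L (s.1 ++ l') = s.1 := by
          intro l'
          rw [List.take_append_of_le_length hs'.ge, List.take_of_length_le s.2]
        rw [this, e1, e1]
  let f : FinGraph → Bool := fun G => out ((encodeGraph G).foldl δ s₀)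
  refine ⟨f, ⟨autoComputable s₀ δ out encodeGraph f (fun _ => rfl)⟩, ?_⟩
  intro G hG
  have h1 : ((encodeGraph G).foldl δ s₀).1 = (encodeGraph G).take L := by
    rw [hfold]; rfl
  by_cases hN : G.1 < N
  · have h2 : (encodeGraph G).length < L := by
      rw [length_encodeGraph]
      have : G.1 * G.1 ≤ N * N := Nat.mul_le_mul hN.le hN.le
      simp only [L]; omega
    have h3 : ((encodeGraph G).foldl δ s₀).1 = encodeGraph G := by
      rw [h1, List.take_of_length_le h2.le]
    simp only [f, out, h3, if_pos h2, decide_eq_true_eq]
    constructor
    · rintro ⟨G', h4, h5⟩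
      rwa [← encodeGraph_injective h4]
    · intro h4; exact ⟨G, rfl, h4⟩
  · have h2 : ¬ ((encodeGraph G).take L).length < L := by
      rw [List.length_take, length_encodeGraph]
      have : N * N ≤ G.1 * G.1 := Nat.mul_le_mul (by omega) (by omega)
      simp only [L]; omega
    simp only [f, out, h1, if_neg h2, decide_eq_true_eq]
    exact (h G hG (by omega)).symm

/-! ### Countability of the set of formulas -/

/-- A code for every formula. -/
def MSO.code : {k l : ℕ} → MSO k l → ℕ
  | _, _, .adj i j => 7 * Nat.pair i j
  | _, _, .eq i j => 7 * Nat.pair i j + 1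
  | _, _, .mem i X => 7 * Nat.pair i X + 2
  | _, _, .neg φ => 7 * φ.code + 3
  | _, _, .and φ ψ => 7 * Nat.pair φ.code ψ.code + 4
  | _, _, .exVertex φ => 7 * φ.code + 5
  | _, _, .exSet φ => 7 * φ.code + 6

lemma MSO.code_inj {k l : ℕ} (φ ψ : MSO k l) (h : φ.code = ψ.code) : φ = ψ := by
  induction φ with
  | adj i j =>
    cases ψ with
    | adj i' j' =>
      simp only [MSO.code] at h
      have := Nat.pair_eq_pair.1 (by omega : Nat.pair i j = Nat.pair i' j')
      rw [Fin.ext this.1, Fin.ext this.2]
    | _ => simp only [MSO.code] at h; omega
  | eq i j =>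
    cases ψ with
    | eq i' j' =>
      simp only [MSO.code] at h
      have := Nat.pair_eq_pair.1 (by omega : Nat.pair i j = Nat.pair i' j')
      rw [Fin.ext this.1, Fin.ext this.2]
    | _ => simp only [MSO.code] at h; omega
  | mem i X =>
    cases ψ with
    | mem i' X' =>
      simp only [MSO.code] at h
      have := Nat.pair_eq_pair.1 (by omega : Nat.pair i X = Nat.pair i' X')
      rw [Fin.ext this.1, Fin.ext this.2]
    | _ => simp only [MSO.code] at h; omega
  | neg φ ih =>
    cases ψ with
    | neg ψ =>
      simp only [MSO.code] at h
      rw [ih ψ (by omega)]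
    | _ => simp only [MSO.code] at h; omega
  | and φ φ' ih ih' =>
    cases ψ with
    | and ψ ψ' =>
      simp only [MSO.code] at h
      have := Nat.pair_eq_pair.1 (by omega : Nat.pair φ.code φ'.code = Nat.pair ψ.code ψ'.code)
      rw [ih ψ this.1, ih' ψ' this.2]
    | _ => simp only [MSO.code] at h; omega
  | exVertex φ ih =>
    cases ψ with
    | exVertex ψ =>
      simp only [MSO.code] at h
      rw [ih ψ (by omega)]
    | _ => simp only [MSO.code] at h; omega
  | exSet φ ih =>
    cases ψ with
    | exSet ψ =>
      simp only [MSO.code] at h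
      rw [ih ψ (by omega)]
    | _ => simp only [MSO.code] at h; omega

instance (k l : ℕ) : Countable (MSO k l) :=
  Function.Injective.countable (f := MSO.code) fun φ ψ h => MSO.code_inj φ ψ h

/-! ### Isomorphism invariance -/

lemma MSO.sat_iso {V W : Type} {G : SimpleGraph V} {H : SimpleGraph W} (e : G ≃g H) {k l : ℕ}
    (φ : MSO k l) : ∀ (x : Fin k → V) (S : Fin l → Set V),
    φ.Sat G x S ↔ φ.Sat H (fun i => e (x i)) (fun j => e '' (S j)) := by
  induction φ with
  | adj i j => intro x S; exact e.map_adj_iff.symm
  | eq i j => intro x S; exact e.injective.eq_iff.symm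
  | mem i X =>
    intro x S
    exact (Set.InjOn.mem_image_iff e.injective.injOn (Set.subset_univ _) (Set.mem_univ _)).symm
  | neg φ ih => intro x S; exact not_congr (ih x S)
  | and φ ψ ih1 ih2 => intro x S; exact and_congr (ih1 x S) (ih2 x S)
  | exVertex φ ih =>
    intro x S
    have hcons : ∀ v, (fun i => e ((Fin.cons v x : Fin _ → V) i)) =
        (Fin.cons (e v) (fun i => e (x i)) : Fin _ → W) := by
      intro v
      funext i
      refine Fin.cases ?_ (fun i => ?_) i <;> simp
    constructor
    · rintro ⟨v, hv⟩
      refine ⟨e v, ?_⟩
      rw [← hcons]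
      exact (ih _ _).1 hv
    · rintro ⟨w, hw⟩
      refine ⟨e.symm w, (ih _ _).2 ?_⟩
      rw [hcons, e.apply_symm_apply]
      exact hw
  | exSet φ ih =>
    intro x S
    have hcons : ∀ T, (fun j => e '' ((Fin.cons T S : Fin _ → Set V) j)) =
        (Fin.cons (e '' T) (fun j => e '' (S j)) : Fin _ → Set W) := by
      intro T
      funext i
      refine Fin.cases ?_ (fun i => ?_) i <;> simp
    constructor
    · rintro ⟨T, hT⟩
      refine ⟨e '' T, ?_⟩
      rw [← hcons]
      exact (ih _ _).1 hT
    · rintro ⟨T, hT⟩
      refine ⟨e.symm '' T, (ih _ _).2 ?_⟩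
      rw [hcons]
      have : e '' (e.symm '' T) = T := by
        rw [← Set.image_comp]
        have : (e ∘ e.symm : W → W) = id := funext fun w => e.apply_symm_apply w
        rw [this, Set.image_id]
      rw [this]
      exact hT

lemma models_iso {V W : Type} {G : SimpleGraph V} {H : SimpleGraph W} (e : G ≃g H)
    (φ : MSO 0 0) : Models G φ ↔ Models H φ := by
  unfold Models
  rw [MSO.sat_iso e]
  have h1 : (fun i : Fin 0 => e (i.elim0 : V)) = (fun i => i.elim0) := funext fun i => i.elim0
  have h2 : (fun j : Fin 0 => e '' (j.elim0 : Set V)) = (fun i => i.elim0) :=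
    funext fun i => i.elim0
  rw [h1, h2]

end Pool.Agent.H76.CW
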