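import Mathlib
import Pool.Agent.H76.CW.Encode

/-!
A primitive recursive evaluation of monadic second-order formulas in inner product graphs with
additional isolated vertices.
-/

set_option autoImplicit false

namespace Pool.Agent.H76.CW

/-- The binary digit of `u` at position `i`. -/
def bt (u i : ℕ) : ℕ := u / 2 ^ i % 2

/-- The inner product modulo 2 of the vectors of the first `m` binary digits of `u` and `v`. -/
def ipn (m u v : ℕ) : ℕ := ((List.range m).foldr (fun i s => bt u i * bt v i + s) 0) % 2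

/-- Adjacency in the padded inner product graph of dimension `m`: different vertices
`u, v < 2 ^ m` whose inner product is one. -/
def adjb (m u v : ℕ) : Bool :=
  (!(u == v)) && (decide (u < 2 ^ m) && (decide (v < 2 ^ m) && (ipn m u v == 1)))

/-- Evaluation of the formula with code `c` in the padded inner product graph with vertex set
`{0, …, 2 ^ (m + 1) - 1}`, for the list `x` of vertices and the list `S` of sets (coded by their
characteristic numbers). -/
def ev (m : ℕ) (c : ℕ) (x S : List ℕ) : Bool :=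
  if c % 7 = 0 then adjb m (x.getD (c / 7).unpair.1 0) (x.getD (c / 7).unpair.2 0)
  else if c % 7 = 1 then x.getD (c / 7).unpair.1 0 == x.getD (c / 7).unpair.2 0
  else if c % 7 = 2 then bt (S.getD (c / 7).unpair.2 0) (x.getD (c / 7).unpair.1 0) == 1
  else if c % 7 = 3 then ! ev m (c / 7) x S
  else if c % 7 = 4 then ev m (c / 7).unpair.1 x S && ev m (c / 7).unpair.2 x S
  else if c % 7 = 5 then
    ((List.range (2 ^ (m + 1))).map (fun v => ev m (c / 7) (v :: x) S)).foldr (· || ·) false
  else
    ((List.range (2 ^ 2 ^ (m + 1))).map (fun T => ev m (c / 7) x (T :: S))).foldr (· || ·) false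
termination_by c
decreasing_by
  all_goals first
    | omega
    | (have := Nat.unpair_left_le (c / 7); omega)
    | (have := Nat.unpair_right_le (c / 7); omega)

section Primrec

theorem primrec_pow : Primrec₂ ((· ^ ·) : ℕ → ℕ → ℕ) :=
  Primrec₂.unpaired'.1 Nat.Primrec.pow

theorem primrec_two_pow {α : Type*} [Primcodable α] {f : α → ℕ} (hf : Primrec f) :
    Primrec fun a => 2 ^ f a :=
  primrec_pow.comp (Primrec.const 2) hf

theorem primrec_bt : Primrec₂ bt :=
  Primrec.nat_mod.comp (Primrec.nat_div.comp Primrec.fst (primrec_two_pow Primrec.snd))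
    (Primrec.const 2)

theorem primrec_ipn : Primrec fun p : ℕ × ℕ × ℕ => ipn p.1 p.2.1 p.2.2 := by
  refine Primrec.nat_mod.comp ?_ (Primrec.const 2)
  refine Primrec.list_foldr (Primrec.list_range.comp Primrec.fst) (Primrec.const 0)
    (h := fun (p : ℕ × ℕ × ℕ) (q : ℕ × ℕ) => bt p.2.1 q.1 * bt p.2.2 q.1 + q.2) ?_
  exact Primrec.nat_add.comp
    (Primrec.nat_mul.comp
      (primrec_bt.comp (Primrec.fst.comp (Primrec.snd.comp Primrec.fst))
        (Primrec.fst.comp Primrec.snd))
      (primrec_bt.comp (Primrec.snd.comp (Primrec.snd.comp Primrec.fst))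
        (Primrec.fst.comp Primrec.snd)))
    (Primrec.snd.comp Primrec.snd)

theorem primrec_adjb : Primrec fun p : ℕ × ℕ × ℕ => adjb p.1 p.2.1 p.2.2 := by
  have h1 : Primrec fun p : ℕ × ℕ × ℕ => (!(p.2.1 == p.2.2)) :=
    Primrec.not.comp (Primrec.beq.comp (Primrec.fst.comp Primrec.snd)
      (Primrec.snd.comp Primrec.snd))
  have h2 : Primrec fun p : ℕ × ℕ × ℕ => decide (p.2.1 < 2 ^ p.1) :=
    Primrec.nat_lt.decide.comp (Primrec.fst.comp Primrec.snd) (primrec_two_pow Primrec.fst)
  have h3 : Primrec fun p : ℕ × ℕ × ℕ => decide (p.2.2 < 2 ^ p.1) :=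
    Primrec.nat_lt.decide.comp (Primrec.snd.comp Primrec.snd) (primrec_two_pow Primrec.fst)
  have h4 : Primrec fun p : ℕ × ℕ × ℕ => (ipn p.1 p.2.1 p.2.2 == 1) :=
    Primrec.beq.comp primrec_ipn (Primrec.const 1)
  exact Primrec.and.comp h1 (Primrec.and.comp h2 (Primrec.and.comp h3 h4))

/-- The type of the arguments of the evaluation. -/
abbrev EvArg := ℕ × ℕ × List ℕ × List ℕ

/-- The recursive calls of the evaluation. -/
def evSub (b : EvArg) : List EvArg :=
  if b.2.1 % 7 = 3 then [(b.1, b.2.1 / 7, b.2.2.1, b.2.2.2)]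
  else if b.2.1 % 7 = 4 then
    [(b.1, (b.2.1 / 7).unpair.1, b.2.2.1, b.2.2.2), (b.1, (b.2.1 / 7).unpair.2, b.2.2.1, b.2.2.2)]
  else if b.2.1 % 7 = 5 then
    (List.range (2 ^ (b.1 + 1))).map fun v => (b.1, b.2.1 / 7, v :: b.2.2.1, b.2.2.2)
  else if b.2.1 % 7 = 6 then
    (List.range (2 ^ 2 ^ (b.1 + 1))).map fun T => (b.1, b.2.1 / 7, b.2.2.1, T :: b.2.2.2)
  else []

/-- One step of the evaluation. -/
def evStep (b : EvArg) (l : List Bool) : Bool :=
  if b.2.1 % 7 = 0 then
    adjb b.1 (b.2.2.1.getD (b.2.1 / 7).unpair.1 0) (b.2.2.1.getD (b.2.1 / 7).unpair.2 0)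
  else if b.2.1 % 7 = 1 then
    b.2.2.1.getD (b.2.1 / 7).unpair.1 0 == b.2.2.1.getD (b.2.1 / 7).unpair.2 0
  else if b.2.1 % 7 = 2 then
    bt (b.2.2.2.getD (b.2.1 / 7).unpair.2 0) (b.2.2.1.getD (b.2.1 / 7).unpair.1 0) == 1
  else if b.2.1 % 7 = 3 then ! l.getD 0 false
  else if b.2.1 % 7 = 4 then l.getD 0 false && l.getD 1 false
  else l.foldr (· || ·) false

theorem ev_eq_step (b : EvArg) :
    ev b.1 b.2.1 b.2.2.1 b.2.2.2 =
      evStep b ((evSub b).map fun b => ev b.1 b.2.1 b.2.2.1 b.2.2.2) := by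
  obtain ⟨m, c, x, S⟩ := b
  simp only
  rw [ev]
  unfold evStep evSub
  simp only
  by_cases h0 : c % 7 = 0
  · simp [h0]
  by_cases h1 : c % 7 = 1
  · simp [h1]
  by_cases h2 : c % 7 = 2
  · simp [h2]
  by_cases h3 : c % 7 = 3
  · simp [h3]
  by_cases h4 : c % 7 = 4
  · simp [h4]
  by_cases h5 : c % 7 = 5
  · simp [h5, Function.comp_def]
  have h6 : c % 7 = 6 := by omega
  simp [h6, Function.comp_def]

theorem primrec_evSub : Primrec evSub := by
  have hc : Primrec fun b : EvArg => b.2.1 := Primrec.fst.comp Primrec.snd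
  have hmod : ∀ r : ℕ, PrimrecPred fun b : EvArg => b.2.1 % 7 = r := fun r =>
    Primrec.eq.comp (Primrec.nat_mod.comp hc (Primrec.const 7)) (Primrec.const r)
  have hm : Primrec fun b : EvArg => b.1 := Primrec.fst
  have hd : Primrec fun b : EvArg => b.2.1 / 7 := Primrec.nat_div.comp hc (Primrec.const 7)
  have hu : Primrec fun b : EvArg => (b.2.1 / 7).unpair := Primrec.unpair.comp hd
  have hx : Primrec fun b : EvArg => b.2.2.1 := Primrec.fst.comp (Primrec.snd.comp Primrec.snd)
  have hS : Primrec fun b : EvArg => b.2.2.2 := Primrec.snd.comp (Primrec.snd.comp Primrec.snd)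
  refine Primrec.ite (hmod 3) ?_ (Primrec.ite (hmod 4) ?_ (Primrec.ite (hmod 5) ?_
    (Primrec.ite (hmod 6) ?_ (Primrec.const _))))
  · exact Primrec.list_cons.comp (hm.pair (hd.pair (hx.pair hS))) (Primrec.const [])
  · exact Primrec.list_cons.comp (hm.pair ((Primrec.fst.comp hu).pair (hx.pair hS)))
      (Primrec.list_cons.comp (hm.pair ((Primrec.snd.comp hu).pair (hx.pair hS)))
        (Primrec.const []))
  · refine Primrec.list_map (Primrec.list_range.comp (primrec_two_pow (Primrec.succ.comp hm))) ?_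
    exact (hm.comp Primrec.fst).pair ((hd.comp Primrec.fst).pair
      ((Primrec.list_cons.comp Primrec.snd (hx.comp Primrec.fst)).pair (hS.comp Primrec.fst)))
  · refine Primrec.list_map (Primrec.list_range.comp
      (primrec_two_pow (primrec_two_pow (Primrec.succ.comp hm)))) ?_
    exact (hm.comp Primrec.fst).pair ((hd.comp Primrec.fst).pair
      ((hx.comp Primrec.fst).pair (Primrec.list_cons.comp Primrec.snd (hS.comp Primrec.fst))))

theorem primrec_evStep : Primrec₂ evStep := by
  have hc : Primrec fun b : EvArg × List Bool => b.1.2.1 :=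
    Primrec.fst.comp (Primrec.snd.comp Primrec.fst)
  have hmod : ∀ r : ℕ, PrimrecPred fun b : EvArg × List Bool => b.1.2.1 % 7 = r := fun r =>
    Primrec.eq.comp (Primrec.nat_mod.comp hc (Primrec.const 7)) (Primrec.const r)
  have hm : Primrec fun b : EvArg × List Bool => b.1.1 := Primrec.fst.comp Primrec.fst
  have hd : Primrec fun b : EvArg × List Bool => b.1.2.1 / 7 :=
    Primrec.nat_div.comp hc (Primrec.const 7)
  have hu : Primrec fun b : EvArg × List Bool => (b.1.2.1 / 7).unpair := Primrec.unpair.comp hd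
  have hx : Primrec fun b : EvArg × List Bool => b.1.2.2.1 :=
    Primrec.fst.comp (Primrec.snd.comp (Primrec.snd.comp Primrec.fst))
  have hS : Primrec fun b : EvArg × List Bool => b.1.2.2.2 :=
    Primrec.snd.comp (Primrec.snd.comp (Primrec.snd.comp Primrec.fst))
  have hx1 : Primrec fun b : EvArg × List Bool => b.1.2.2.1.getD (b.1.2.1 / 7).unpair.1 0 :=
    (Primrec.list_getD 0).comp hx (Primrec.fst.comp hu)
  have hx2 : Primrec fun b : EvArg × List Bool => b.1.2.2.1.getD (b.1.2.1 / 7).unpair.2 0 :=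
    (Primrec.list_getD 0).comp hx (Primrec.snd.comp hu)
  have hS2 : Primrec fun b : EvArg × List Bool => b.1.2.2.2.getD (b.1.2.1 / 7).unpair.2 0 :=
    (Primrec.list_getD 0).comp hS (Primrec.snd.comp hu)
  have hl : Primrec fun b : EvArg × List Bool => b.2 := Primrec.snd
  refine Primrec.ite (hmod 0) ?_ (Primrec.ite (hmod 1) ?_ (Primrec.ite (hmod 2) ?_
    (Primrec.ite (hmod 3) ?_ (Primrec.ite (hmod 4) ?_ ?_))))
  · exact primrec_adjb.comp (hm.pair (hx1.pair hx2))
  · exact Primrec.beq.comp hx1 hx2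
  · exact Primrec.beq.comp (primrec_bt.comp hS2 hx1) (Primrec.const 1)
  · exact Primrec.not.comp ((Primrec.list_getD false).comp hl (Primrec.const 0))
  · exact Primrec.and.comp ((Primrec.list_getD false).comp hl (Primrec.const 0))
      ((Primrec.list_getD false).comp hl (Primrec.const 1))
  · exact Primrec.list_foldr hl (Primrec.const false)
      (h := fun _ q => q.1 || q.2)
      (Primrec.or.comp (Primrec.fst.comp Primrec.snd) (Primrec.snd.comp Primrec.snd))

theorem primrec_ev : Primrec fun b : EvArg => ev b.1 b.2.1 b.2.2.1 b.2.2.2 := by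
  refine Primrec.nat_omega_rec' (fun b : EvArg => ev b.1 b.2.1 b.2.2.1 b.2.2.2)
    (m := fun b : EvArg => b.2.1) (l := evSub) (g := fun b l => some (evStep b l))
    (Primrec.fst.comp Primrec.snd) primrec_evSub (Primrec.option_some.comp primrec_evStep) ?_ ?_
  · rintro ⟨m, c, x, S⟩ b' hb'
    simp only [evSub] at hb'
    split_ifs at hb' with h3 h4 h5 h6
    · simp only [List.mem_singleton] at hb'
      subst hb'
      show c / 7 < c
      omega
    · simp only [List.mem_cons, List.not_mem_nil, or_false] at hb'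
      have h1 := Nat.unpair_left_le (c / 7)
      have h2 := Nat.unpair_right_le (c / 7)
      rcases hb' with rfl | rfl
      · show (c / 7).unpair.1 < c
        omega
      · show (c / 7).unpair.2 < c
        omega
    · simp only [List.mem_map] at hb'
      obtain ⟨v, _, rfl⟩ := hb'
      show c / 7 < c
      omega
    · simp only [List.mem_map] at hb'
      obtain ⟨v, _, rfl⟩ := hb'
      show c / 7 < c
      omega
    · simp at hb'
  · intro b
    rw [ev_eq_step b]

end Primrec

end Pool.Agent.H76.CW
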