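import Mathlib
import Pool.Agent.H76.CW.Ev
import Pool.Agent.H76.CW.Cut

/-!
Padded inner product graphs: the evaluation is correct, isolated vertices are invisible to
monadic second-order logic beyond a threshold, and the clique-width is large.
-/

set_option autoImplicit false

namespace Pool.Agent.H76.CW

/-! ### Padded inner product graphs -/

lemma ipn_comm (m u v : ℕ) : ipn m u v = ipn m v u := by
  unfold ipn
  congr 2
  funext i s
  rw [Nat.mul_comm]

lemma adjb_iff (m u v : ℕ) :
    adjb m u v = true ↔ u ≠ v ∧ u < 2 ^ m ∧ v < 2 ^ m ∧ ipn m u v = 1 := by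
  simp [adjb]

/-- The inner product graph of dimension `m` with isolated vertices added, so that the total
number of vertices is `N` (for `N ≥ 2 ^ m`). -/
def Pad (m N : ℕ) : SimpleGraph (Fin N) where
  Adj u v := adjb m u v = true
  symm := ⟨fun u v h => by
    rw [adjb_iff] at h ⊢
    exact ⟨h.1.symm, h.2.2.1, h.2.1, by rw [ipn_comm]; exact h.2.2.2⟩⟩
  loopless := ⟨fun u h => by
    rw [adjb_iff] at h
    exact h.1 rfl⟩

lemma pad_adj {m N : ℕ} (u v : Fin N) : (Pad m N).Adj u v ↔ adjb m u v = true := Iff.rfl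

/-! ### Correctness of the evaluation -/

lemma bt_eq_one (u i : ℕ) : bt u i = 1 ↔ u.testBit i = true := by
  rw [Nat.testBit_eq_decide_div_mod_eq]
  simp [bt]

lemma exists_mask (N : ℕ) (P : Set (Fin N)) :
    ∃ T < 2 ^ N, ∀ v : Fin N, bt T v = 1 ↔ v ∈ P := by
  classical
  refine ⟨Nat.ofBits (fun v => decide (v ∈ P)), Nat.ofBits_lt_two_pow _, fun v => ?_⟩
  rw [bt_eq_one, Nat.testBit_ofBits_lt _ _ v.2]
  simp

lemma foldr_or (l : List Bool) : l.foldr (· || ·) false = true ↔ true ∈ l := by
  induction l with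
  | nil => simp
  | cons a l ih =>
    cases a
    · simp only [List.foldr_cons, Bool.false_or, ih, List.mem_cons]
      simp
    · simp

lemma ev_iff_sat (m : ℕ) {k l : ℕ} (φ : MSO k l) :
    ∀ (x : Fin k → Fin (2 ^ (m + 1))) (S : Fin l → Set (Fin (2 ^ (m + 1)))) (xs Ss : List ℕ),
      (∀ i : Fin k, xs.getD i 0 = x i) →
      (∀ (j : Fin l) (v : Fin (2 ^ (m + 1))), bt (Ss.getD j 0) v = 1 ↔ v ∈ S j) →
      (ev m φ.code xs Ss = true ↔ φ.Sat (Pad m (2 ^ (m + 1))) x S) := by
  induction φ with
  | @adj k' l' i j =>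
    intro x S xs Ss hx hS
    rw [ev]
    have h0 : MSO.code (MSO.adj i j : MSO k' l') % 7 = 0 := by simp only [MSO.code]; omega
    have h1 : MSO.code (MSO.adj i j : MSO k' l') / 7 = Nat.pair i j := by
      simp only [MSO.code]; omega
    rw [if_pos h0, h1, Nat.unpair_pair]
    simp only [hx]
    rfl
  | @eq k' l' i j =>
    intro x S xs Ss hx hS
    rw [ev]
    have h0 : MSO.code (MSO.eq i j : MSO k' l') % 7 = 1 := by simp only [MSO.code]; omega
    have h1 : MSO.code (MSO.eq i j : MSO k' l') / 7 = Nat.pair i j := by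
      simp only [MSO.code]; omega
    rw [if_neg (by omega), if_pos h0, h1, Nat.unpair_pair]
    simp only [hx, beq_iff_eq]
    exact Fin.val_inj
  | @mem k' l' i X =>
    intro x S xs Ss hx hS
    rw [ev]
    have h0 : MSO.code (MSO.mem i X : MSO k' l') % 7 = 2 := by simp only [MSO.code]; omega
    have h1 : MSO.code (MSO.mem i X : MSO k' l') / 7 = Nat.pair i X := by
      simp only [MSO.code]; omega
    rw [if_neg (by omega), if_neg (by omega), if_pos h0, h1, Nat.unpair_pair]
    simp only [hx, beq_iff_eq]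
    exact hS X (x i)
  | neg φ ih =>
    intro x S xs Ss hx hS
    rw [ev]
    have h0 : MSO.code (MSO.neg φ) % 7 = 3 := by simp only [MSO.code]; omega
    have h1 : MSO.code (MSO.neg φ) / 7 = φ.code := by simp only [MSO.code]; omega
    rw [if_neg (by omega), if_neg (by omega), if_neg (by omega), if_pos h0, h1]
    have := ih x S xs Ss hx hS
    show _ ↔ ¬ _
    rw [← this]
    simp
  | and φ ψ ih1 ih2 =>
    intro x S xs Ss hx hS
    rw [ev]
    have h0 : MSO.code (MSO.and φ ψ) % 7 = 4 := by simp only [MSO.code]; omega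
    have h1 : MSO.code (MSO.and φ ψ) / 7 = Nat.pair φ.code ψ.code := by
      simp only [MSO.code]; omega
    rw [if_neg (by omega), if_neg (by omega), if_neg (by omega), if_neg (by omega), if_pos h0, h1,
      Nat.unpair_pair, Bool.and_eq_true]
    exact and_congr (ih1 x S xs Ss hx hS) (ih2 x S xs Ss hx hS)
  | exVertex φ ih =>
    intro x S xs Ss hx hS
    rw [ev]
    have h0 : MSO.code (MSO.exVertex φ) % 7 = 5 := by simp only [MSO.code]; omega
    have h1 : MSO.code (MSO.exVertex φ) / 7 = φ.code := by simp only [MSO.code]; omega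
    rw [if_neg (by omega), if_neg (by omega), if_neg (by omega), if_neg (by omega),
      if_neg (by omega), if_pos h0, h1, foldr_or, List.mem_map]
    constructor
    · rintro ⟨v, hv, hev⟩
      rw [List.mem_range] at hv
      refine ⟨⟨v, hv⟩, (ih _ S (v :: xs) Ss ?_ hS).1 hev⟩
      intro i
      refine Fin.cases ?_ (fun i => ?_) i
      · rfl
      · simpa using hx i
    · rintro ⟨v, hv⟩
      refine ⟨v.1, List.mem_range.2 v.2, (ih _ S (v.1 :: xs) Ss ?_ hS).2 hv⟩
      intro i
      refine Fin.cases ?_ (fun i => ?_) i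
      · rfl
      · simpa using hx i
  | exSet φ ih =>
    intro x S xs Ss hx hS
    rw [ev]
    have h0 : MSO.code (MSO.exSet φ) % 7 = 6 := by simp only [MSO.code]; omega
    have h1 : MSO.code (MSO.exSet φ) / 7 = φ.code := by simp only [MSO.code]; omega
    rw [if_neg (by omega), if_neg (by omega), if_neg (by omega), if_neg (by omega),
      if_neg (by omega), if_neg (by omega), h1, foldr_or, List.mem_map]
    constructor
    · rintro ⟨T, hT, hev⟩
      refine ⟨{v | bt T v = 1}, (ih x _ xs (T :: Ss) hx ?_).1 hev⟩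
      intro j
      refine Fin.cases ?_ (fun j => ?_) j
      · intro v; exact Iff.rfl
      · intro v; simpa using hS j v
    · rintro ⟨P, hP⟩
      obtain ⟨T, hT, hTP⟩ := exists_mask _ P
      refine ⟨T, List.mem_range.2 hT, (ih x _ xs (T :: Ss) hx ?_).2 hP⟩
      intro j
      refine Fin.cases ?_ (fun j => ?_) j
      · intro v; exact hTP v
      · intro v; simpa using hS j v

lemma ev_iff_models (m : ℕ) (φ : MSO 0 0) :
    ev m φ.code [] [] = true ↔ Models (Pad m (2 ^ (m + 1))) φ :=
  ev_iff_sat m φ _ _ [] [] (fun i => i.elim0) (fun j => j.elim0)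

/-! ### Isolated vertices -/

/-- The number of isolated vertices of every colour a formula can count. -/
def MSO.th : {k l : ℕ} → MSO k l → ℕ
  | _, _, .adj _ _ => 0
  | _, _, .eq _ _ => 0
  | _, _, .mem _ _ => 0
  | _, _, .neg φ => φ.th
  | _, _, .and φ ψ => max φ.th ψ.th
  | _, _, .exVertex φ => φ.th + 1
  | _, _, .exSet φ => 2 * φ.th + 1

/-- Interchanging two isolated vertices is an automorphism. -/
def swapIso {V : Type} [DecidableEq V] (G : SimpleGraph V) (a b : V) (ha : ∀ v, ¬ G.Adj a v)
    (hb : ∀ v, ¬ G.Adj b v) : G ≃g G where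
  toEquiv := Equiv.swap a b
  map_rel_iff' := by
    intro v w
    have ha' : ∀ v, ¬ G.Adj v a := fun v h => ha v h.symm
    have hb' : ∀ v, ¬ G.Adj v b := fun v h => hb v h.symm
    by_cases h1 : v = a
    · subst h1
      rw [Equiv.swap_apply_left]
      exact ⟨fun h => (hb _ h).elim, fun h => (ha _ h).elim⟩
    by_cases h2 : v = b
    · subst h2
      rw [Equiv.swap_apply_right]
      exact ⟨fun h => (ha _ h).elim, fun h => (hb _ h).elim⟩
    rw [Equiv.swap_apply_of_ne_of_ne h1 h2]
    by_cases h3 : w = a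
    · subst h3
      rw [Equiv.swap_apply_left]
      exact ⟨fun h => (hb' _ h).elim, fun h => (ha' _ h).elim⟩
    by_cases h4 : w = b
    · subst h4
      rw [Equiv.swap_apply_right]
      exact ⟨fun h => (ha' _ h).elim, fun h => (hb' _ h).elim⟩
    rw [Equiv.swap_apply_of_ne_of_ne h3 h4]

/-- The vertices that are twins of the isolated vertex `u`. -/
def twins {V V' : Type} (G : SimpleGraph V) (f : V' → V) (u : V) {k l : ℕ} (x : Fin k → V')
    (S : Fin l → Set V) : Set V' :=
  {w | (∀ v, ¬ G.Adj (f w) v) ∧ (∀ i, x i ≠ w) ∧ ∀ j, (f w ∈ S j ↔ u ∈ S j)}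

lemma mem_swap_image {V : Type} [DecidableEq V] (a b v : V) (P : Set V) :
    v ∈ (Equiv.swap a b) '' P ↔ Equiv.swap a b v ∈ P := by
  constructor
  · rintro ⟨w, hw, rfl⟩
    rwa [Equiv.swap_apply_self]
  · intro h
    exact ⟨_, h, Equiv.swap_apply_self a b v⟩

lemma swap_image_eq {V : Type} [DecidableEq V] (a b : V) (P : Set V) (h : a ∈ P ↔ b ∈ P) :
    (Equiv.swap a b) '' P = P := by
  ext v
  rw [mem_swap_image]
  by_cases h1 : v = a
  · subst h1; rw [Equiv.swap_apply_left]; exact h.symm
  by_cases h2 : v = b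
  · subst h2; rw [Equiv.swap_apply_right]; exact h
  rw [Equiv.swap_apply_of_ne_of_ne h1 h2]

/-- Removing an isolated vertex that has many twins. -/
lemma sat_remove {V V' : Type} [Finite V'] (G : SimpleGraph V) (f : V' → V)
    (hf : Function.Injective f) (u : V) (hu : ∀ v, v ≠ u → ∃ w, f w = v) (hu' : ∀ w, f w ≠ u)
    (hiso : ∀ v, ¬ G.Adj u v) {k l : ℕ} (φ : MSO k l) :
    ∀ (x : Fin k → V') (S : Fin l → Set V), φ.th ≤ (twins G f u x S).ncard →
      (φ.Sat G (fun i => f (x i)) S ↔ φ.Sat (G.comap f) x (fun j => f ⁻¹' (S j))) := by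
  classical
  -- a common computation
  have hcons : ∀ {k : ℕ} (x : Fin k → V') (w : V'),
      (Fin.cons (f w) (fun i => f (x i)) : Fin (k + 1) → V) =
        fun i => f ((Fin.cons w x : Fin (k + 1) → V') i) := by
    intro k x w
    funext i
    refine Fin.cases ?_ (fun i => ?_) i <;> simp
  have hconsS : ∀ {l : ℕ} (S : Fin l → Set V) (P : Set V),
      (Fin.cons (f ⁻¹' P) (fun j => f ⁻¹' (S j)) : Fin (l + 1) → Set V') =
        fun j => f ⁻¹' ((Fin.cons P S : Fin (l + 1) → Set V) j) := by
    intro l S P
    funext i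
    refine Fin.cases ?_ (fun i => ?_) i <;> simp
  have htw : ∀ {k l : ℕ} (x : Fin k → V') (S : Fin l → Set V) (w : V'),
      (twins G f u x S) \ {w} ⊆ twins G f u (Fin.cons w x : Fin (k + 1) → V') S := by
    intro k l x S w z hz
    obtain ⟨⟨h1, h2, h3⟩, h4⟩ := hz
    refine ⟨h1, ?_, h3⟩
    intro i
    refine Fin.cases ?_ (fun i => ?_) i
    · simpa using fun h => h4 h.symm
    · simpa using h2 i
  induction φ with
  | adj i j => intro x S _; exact Iff.rfl
  | eq i j => intro x S _; exact hf.eq_iff
  | mem i X => intro x S _; exact Iff.rfl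
  | neg φ ih => intro x S h; exact not_congr (ih x S h)
  | and φ ψ ih1 ih2 =>
    intro x S h
    exact and_congr (ih1 x S ((le_max_left _ _).trans h)) (ih2 x S ((le_max_right _ _).trans h))
  | exVertex φ ih =>
    intro x S h
    have h' : φ.th + 1 ≤ (twins G f u x S).ncard := h
    have hle : ∀ w : V', φ.th ≤ (twins G f u (Fin.cons w x : Fin (_ + 1) → V') S).ncard := by
      intro w
      have e1 := Set.ncard_le_ncard (htw x S w) (Set.toFinite _)
      have e2 := Set.pred_ncard_le_ncard_sdiff_singleton (twins G f u x S) w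
      omega
    have key : ∀ w : V', (φ.Sat G (Fin.cons (f w) (fun i => f (x i))) S ↔
        φ.Sat (G.comap f) (Fin.cons w x) (fun j => f ⁻¹' (S j))) := by
      intro w
      rw [hcons]
      exact ih _ S (hle w)
    constructor
    · rintro ⟨v, hv⟩
      by_cases hvu : v = u
      · subst hvu
        -- choose a twin
        have hne : (twins G f v x S).Nonempty := by
          rw [Set.nonempty_iff_ne_empty]
          intro h0
          rw [h0, Set.ncard_empty] at h'
          omega
        obtain ⟨w, hw1, hw2, hw3⟩ := hne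
        refine ⟨w, (key w).1 ?_⟩
        have h2 := (MSO.sat_iso (swapIso G v (f w) hiso hw1) φ _ _).1 hv
        have e1 : (fun i => (swapIso G v (f w) hiso hw1)
            ((Fin.cons v (fun i => f (x i)) : Fin _ → V) i)) =
            Fin.cons (f w) (fun i => f (x i)) := by
          funext i
          refine Fin.cases ?_ (fun i => ?_) i
          · simp only [Fin.cons_zero]
            exact Equiv.swap_apply_left _ _
          · simp only [Fin.cons_succ]
            refine Equiv.swap_apply_of_ne_of_ne (hu' _) ?_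
            intro h3
            exact hw2 i (hf h3)
        have e2 : (fun j => (swapIso G v (f w) hiso hw1) '' (S j)) = S := by
          funext j
          exact swap_image_eq _ _ _ (hw3 j).symm
        rw [e1, e2] at h2
        exact h2
      · obtain ⟨w, rfl⟩ := hu v hvu
        exact ⟨w, (key w).1 hv⟩
    · rintro ⟨w, hw⟩
      exact ⟨f w, (key w).2 hw⟩
  | exSet φ ih =>
    intro x S h
    have h' : 2 * φ.th + 1 ≤ (twins G f u x S).ncard := h
    have key : ∀ P : Set V, φ.th ≤ (twins G f u x (Fin.cons P S : Fin (_ + 1) → Set V)).ncard →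
        (φ.Sat G (fun i => f (x i)) (Fin.cons P S) ↔
          φ.Sat (G.comap f) x (Fin.cons (f ⁻¹' P) (fun j => f ⁻¹' (S j)))) := by
      intro P hP
      rw [hconsS]
      exact ih x _ hP
    -- splitting the twins
    have hsplit : ∀ P' : Set V', (twins G f u x S).ncard =
        (twins G f u x S ∩ P').ncard + (twins G f u x S \ P').ncard := by
      intro P'
      exact (Set.ncard_inter_add_ncard_sdiff_eq_ncard _ _ (Set.toFinite _)).symm
    -- twins for the extended list of sets
    have htwin : ∀ (P : Set V) (w : V'), w ∈ twins G f u x S → (f w ∈ P ↔ u ∈ P) →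
        w ∈ twins G f u x (Fin.cons P S : Fin (_ + 1) → Set V) := by
      rintro P w ⟨h1, h2, h3⟩ h4
      refine ⟨h1, h2, ?_⟩
      intro j
      refine Fin.cases ?_ (fun j => ?_) j
      · simpa using h4
      · simpa using h3 j
    constructor
    · rintro ⟨P, hP⟩
      have h1 := hsplit (f ⁻¹' P)
      by_cases hA : φ.th ≤ (twins G f u x (Fin.cons P S : Fin (_ + 1) → Set V)).ncard
      · exact ⟨_, (key P hA).1 hP⟩
      · -- the other colour is frequent
        have hB : ∃ B : Set V', B ⊆ twins G f u x S ∧ (∀ w ∈ B, ¬ (f w ∈ P ↔ u ∈ P)) ∧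
            φ.th + 2 ≤ B.ncard := by
          by_cases huP : u ∈ P
          · refine ⟨twins G f u x S \ (f ⁻¹' P), Set.sdiff_subset, ?_, ?_⟩
            · intro w hw h2
              exact hw.2 (h2.2 huP)
            · have : (twins G f u x S ∩ (f ⁻¹' P)).ncard ≤
                  (twins G f u x (Fin.cons P S : Fin (_ + 1) → Set V)).ncard := by
                refine Set.ncard_le_ncard ?_ (Set.toFinite _)
                intro w hw
                exact htwin P w hw.1 ⟨fun _ => huP, fun _ => hw.2⟩
              omega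
          · refine ⟨twins G f u x S ∩ (f ⁻¹' P), Set.inter_subset_left, ?_, ?_⟩
            · intro w hw h2
              exact huP (h2.1 hw.2)
            · have : (twins G f u x S \ (f ⁻¹' P)).ncard ≤
                  (twins G f u x (Fin.cons P S : Fin (_ + 1) → Set V)).ncard := by
                refine Set.ncard_le_ncard ?_ (Set.toFinite _)
                intro w hw
                exact htwin P w hw.1 ⟨fun h => (hw.2 h).elim, fun h => (huP h).elim⟩
              omega
        obtain ⟨B, hB1, hB2, hB3⟩ := hB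
        have hBne : B.Nonempty := by
          rw [Set.nonempty_iff_ne_empty]
          intro h0
          rw [h0, Set.ncard_empty] at hB3
          omega
        obtain ⟨w, hw⟩ := hBne
        obtain ⟨hw1, hw2, hw3⟩ := hB1 hw
        have h2 := (MSO.sat_iso (swapIso G u (f w) hiso hw1) φ _ _).1 hP
        have e1 : (fun i => (swapIso G u (f w) hiso hw1) (f (x i))) = fun i => f (x i) := by
          funext i
          refine Equiv.swap_apply_of_ne_of_ne (hu' _) ?_
          intro h3
          exact hw2 i (hf h3)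
        have e2 : (fun j => (swapIso G u (f w) hiso hw1) ''
            ((Fin.cons P S : Fin (_ + 1) → Set V) j)) =
            Fin.cons ((Equiv.swap u (f w)) '' P) S := by
          funext j
          refine Fin.cases ?_ (fun j => ?_) j
          · rfl
          · simp only [Fin.cons_succ]
            exact swap_image_eq _ _ _ (hw3 j).symm
        rw [e1, e2] at h2
        refine ⟨_, (key _ ?_).1 h2⟩
        have h4 : B \ {w} ⊆
            twins G f u x (Fin.cons ((Equiv.swap u (f w)) '' P) S : Fin (_ + 1) → Set V) := by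
          intro z hz
          refine htwin _ z (hB1 hz.1) ?_
          rw [mem_swap_image, mem_swap_image, Equiv.swap_apply_left,
            Equiv.swap_apply_of_ne_of_ne (hu' _) (fun h => hz.2 (hf h))]
          have e3 := hB2 z hz.1
          have e4 := hB2 w hw
          tauto
        have h5 := Set.ncard_le_ncard h4 (Set.toFinite _)
        have h6 := Set.pred_ncard_le_ncard_sdiff_singleton B w
        omega
    · rintro ⟨P', hP'⟩
      have h1 := hsplit P'
      by_cases hA : φ.th ≤ (twins G f u x S ∩ P').ncard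
      · -- give `u` the colour of `P'`
        have e1 : f ⁻¹' (f '' P' ∪ {u}) = P' := by
          ext w
          simp only [Set.mem_preimage, Set.mem_union, Set.mem_singleton_iff]
          constructor
          · rintro (⟨w', hw', h2⟩ | h2)
            · rwa [← hf h2]
            · exact (hu' w h2).elim
          · intro h2; exact Or.inl ⟨w, h2, rfl⟩
        refine ⟨f '' P' ∪ {u}, (key _ ?_).2 (by rw [e1]; exact hP')⟩
        refine hA.trans (Set.ncard_le_ncard ?_ (Set.toFinite _))
        intro w hw
        exact htwin _ w hw.1 ⟨fun _ => Or.inr rfl, fun _ => Or.inl ⟨w, hw.2, rfl⟩⟩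
      · have e1 : f ⁻¹' (f '' P') = P' := Set.preimage_image_eq _ hf
        refine ⟨f '' P', (key _ ?_).2 (by rw [e1]; exact hP')⟩
        have : (twins G f u x S \ P').ncard ≤
            (twins G f u x (Fin.cons (f '' P') S : Fin (_ + 1) → Set V)).ncard := by
          refine Set.ncard_le_ncard ?_ (Set.toFinite _)
          intro w hw
          refine htwin _ w hw.1 ⟨?_, ?_⟩
          · rintro ⟨w', hw', h2⟩
            exact (hw.2 (by rwa [← hf h2])).elim
          · rintro ⟨w', _, h2⟩
            exact (hu' w' h2).elim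
        omega

lemma pad_isolated {m N : ℕ} (u v : Fin N) (hu : 2 ^ m ≤ (u : ℕ)) : ¬ (Pad m N).Adj u v := by
  rw [pad_adj, adjb_iff]
  rintro ⟨_, h, _⟩
  omega

lemma models_pad_succ {m N : ℕ} (φ : MSO 0 0) (hN : 2 ^ m + φ.th ≤ N) :
    Models (Pad m (N + 1)) φ ↔ Models (Pad m N) φ := by
  have h := sat_remove (Pad m (N + 1)) (Fin.castSucc (n := N)) (Fin.castSucc_injective N)
    (Fin.last N) (fun v hv => ⟨v.castPred hv, Fin.castSucc_castPred v hv⟩)
    (fun w => (Fin.castSucc_lt_last w).ne) (fun v => pad_isolated _ _ (by simp; omega)) φ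
    (fun i => i.elim0) (fun j => j.elim0) ?_
  · have e1 : (Pad m (N + 1)).comap (Fin.castSucc (n := N)) = Pad m N := by
      ext a b
      exact Iff.rfl
    rw [e1] at h
    have e2 : (fun i : Fin 0 => Fin.castSucc (i.elim0 : Fin N)) = fun i => i.elim0 :=
      funext fun i => i.elim0
    have e3 : (fun j : Fin 0 => Fin.castSucc ⁻¹' (j.elim0 : Set (Fin (N + 1)))) =
        fun i => i.elim0 := funext fun i => i.elim0
    rw [e2, e3] at h
    exact h
  · have h1 : (Set.range fun i : Fin (N - 2 ^ m) => (⟨2 ^ m + i.1, by omega⟩ : Fin N)) ⊆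
        twins (Pad m (N + 1)) Fin.castSucc (Fin.last N) (fun i : Fin 0 => i.elim0)
          (fun j : Fin 0 => j.elim0) := by
      rintro _ ⟨i, rfl⟩
      refine ⟨fun v => pad_isolated _ _ (by simp), fun i => i.elim0, fun j => j.elim0⟩
    have h2 := Set.ncard_le_ncard h1 (Set.toFinite _)
    have h3 : (Set.range fun i : Fin (N - 2 ^ m) => (⟨2 ^ m + i.1, by omega⟩ : Fin N)).ncard =
        N - 2 ^ m := by
      rw [← Set.image_univ, Set.ncard_image_of_injective, Set.ncard_univ, Nat.card_eq_fintype_card,
        Fintype.card_fin]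
      intro a b hab
      simp only [Fin.mk.injEq] at hab
      exact Fin.ext (by omega)
    omega

lemma models_pad {m N N' : ℕ} (φ : MSO 0 0) (hN : 2 ^ m + φ.th ≤ N) (hN' : 2 ^ m + φ.th ≤ N') :
    Models (Pad m N) φ ↔ Models (Pad m N') φ := by
  have key : ∀ d, Models (Pad m (2 ^ m + φ.th + d)) φ ↔ Models (Pad m (2 ^ m + φ.th)) φ := by
    intro d
    induction d with
    | zero => exact Iff.rfl
    | succ d ih => exact (models_pad_succ φ (Nat.le_add_right _ d)).trans ih
  obtain ⟨d, rfl⟩ := Nat.exists_eq_add_of_le hN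
  obtain ⟨d', rfl⟩ := Nat.exists_eq_add_of_le hN'
  exact (key d).trans (key d').symm

/-! ### Clique-width of the padded graphs -/

lemma foldr_sum (g : ℕ → ℕ) (m : ℕ) :
    (List.range m).foldr (fun i s => g i + s) 0 = ∑ i ∈ Finset.range m, g i := by
  have : (List.range m).foldr (fun i s => g i + s) 0 = ((List.range m).map g).sum := by
    rw [List.sum_eq_foldr, List.foldr_map]
  rw [this]
  rfl

/-- The inner product graph is an induced subgraph of the padded graphs. -/
lemma ip_embeds {m N : ℕ} (hN : 2 ^ m ≤ N) : Nonempty (ip m ↪g Pad m N) := by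
  classical
  let c : (Fin m → ZMod 2) → ℕ := fun x => Nat.ofBits fun i => decide (x i = 1)
  have hc : ∀ x, c x < 2 ^ m := fun x => Nat.ofBits_lt_two_pow _
  have hz : ∀ a : ZMod 2, ((if a = 1 then 1 else 0 : ℕ) : ZMod 2) = a := by decide
  have hbt : ∀ (x : Fin m → ZMod 2) (i : Fin m), ((bt (c x) i : ℕ) : ZMod 2) = x i := by
    intro x i
    have h1 := bt_eq_one (c x) i
    have h2 : (c x).testBit i = decide (x i = 1) := Nat.testBit_ofBits_lt _ _ i.2
    rw [h2, decide_eq_true_eq] at h1
    have h3 : bt (c x) i = if x i = 1 then 1 else 0 := by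
      by_cases h4 : x i = 1
      · rw [if_pos h4]; exact h1.2 h4
      · rw [if_neg h4]
        have h5 : bt (c x) i ≠ 1 := fun h => h4 (h1.1 h)
        have h6 : bt (c x) i < 2 := Nat.mod_lt _ (by norm_num)
        omega
    rw [h3]
    exact hz _
  have hinj : Function.Injective c := by
    intro x y hxy
    funext i
    rw [← hbt x i, ← hbt y i, hxy]
  have hip : ∀ x y : Fin m → ZMod 2, ipn m (c x) (c y) = 1 ↔ x ⬝ᵥ y = 1 := by
    intro x y
    unfold ipn
    rw [foldr_sum, Finset.sum_range]
    have h1 : x ⬝ᵥ y = ((∑ i : Fin m, bt (c x) i * bt (c y) i : ℕ) : ZMod 2) := by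
      push_cast
      exact Finset.sum_congr rfl fun i _ => by rw [hbt, hbt]
    rw [h1]
    generalize (∑ i : Fin m, bt (c x) i * bt (c y) i : ℕ) = n
    have h2 : ((n : ℕ) : ZMod 2) = ((1 : ℕ) : ZMod 2) ↔ n % 2 = 1 % 2 := by
      rw [ZMod.natCast_eq_natCast_iff]
      rfl
    simpa using h2.symm
  refine ⟨⟨⟨fun x => ⟨c x, (hc x).trans_le hN⟩, ?_⟩, ?_⟩⟩
  · intro x y hxy
    exact hinj (Fin.mk.inj hxy)
  · intro x y
    show adjb m (c x) (c y) = true ↔ _
    rw [adjb_iff, ip_adj, hip, hinj.ne_iff]
    simp [hc]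

end Pool.Agent.H76.CW
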