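import Mathlib
import Pool.Agent.H76.CW.Encode

/-!
Properties that depend, on the large graphs of a class, only on the number of vertices modulo a
constant have a polynomial time solution on the class.
-/

set_option autoImplicit false

namespace Pool.Agent.H76.CW

lemma foldl_prod {α β γ : Type} (f : α → γ → α) (g : β → γ → β) (l : List γ) (s : α) (t : β) :
    l.foldl (fun (p : α × β) a => (f p.1 a, g p.2 a)) (s, t) = (l.foldl f s, l.foldl g t) := by
  induction l generalizing s t with
  | nil => rfl
  | cons a l ih => rw [List.foldl_cons, ih]; rfl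

/-- The automaton that counts the leading `true`s modulo `q`. -/
def cnt (q : ℕ) (hq : 0 < q) (s : Fin q × Bool) (a : Bool) : Fin q × Bool :=
  if s.2 then s else if a then (⟨(s.1 + 1) % q, Nat.mod_lt _ hq⟩, false) else (s.1, true)

lemma cnt_done (q : ℕ) (hq : 0 < q) (l : List Bool) (c : Fin q) :
    l.foldl (cnt q hq) (c, true) = (c, true) := by
  induction l with
  | nil => rfl
  | cons a l ih => rw [List.foldl_cons]; exact ih

lemma cnt_run (q : ℕ) (hq : 0 < q) (l : List Bool) (n : ℕ) (c : Fin q) :
    (List.replicate n true ++ false :: l).foldl (cnt q hq) (c, false) =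
      (⟨(c + n) % q, Nat.mod_lt _ hq⟩, true) := by
  induction n generalizing c with
  | zero =>
    rw [List.replicate_zero, List.nil_append, List.foldl_cons]
    have : cnt q hq (c, false) false = (c, true) := rfl
    rw [this, cnt_done]
    congr 1
    exact Fin.ext (Nat.mod_eq_of_lt (by simp)).symm
  | succ n ih =>
    rw [List.replicate_succ, List.cons_append, List.foldl_cons]
    have : cnt q hq (c, false) true = (⟨(c + 1) % q, Nat.mod_lt _ hq⟩, false) := rfl
    rw [this, ih]
    congr 1
    refine Fin.ext ?_
    show ((c + 1) % q + n) % q = (c + (n + 1)) % q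
    rw [Nat.mod_add_mod]
    congr 1
    ring

/-- If a property depends on all but the small graphs of a class only on the number of vertices
modulo `q`, then it has a polynomial time solution on the class. -/
theorem polyTimeOn_of_mod {C : Set FinGraph} {P : FinGraph → Prop} (N q : ℕ) (hq : 0 < q)
    (B : ℕ → Prop) (h : ∀ G ∈ C, N ≤ G.1 → (P G ↔ B (G.1 % q))) : PolyTimeOn C P := by
  classical
  let L : ℕ := N + 1 + N * N
  let σ := {l : List Bool // l.length ≤ L}
  have hfin : Finite σ := (List.finite_length_le Bool L).to_subtype
  have hfty : Fintype σ := Fintype.ofFinite σ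
  let s₀ : σ := ⟨[], Nat.zero_le _⟩
  let δ : σ → Bool → σ := fun s a =>
    if h : s.1.length < L then ⟨s.1 ++ [a], by simpa using h⟩ else s
  have hfold : ∀ (l : List Bool) (s : σ),
      (l.foldl δ s).1 = (s.1 ++ l).take L := by
    intro l
    induction l with
    | nil =>
      intro s
      simp only [List.foldl_nil, List.append_nil]
      exact (List.take_of_length_le s.2).symm
    | cons a l ih =>
      intro s
      rw [List.foldl_cons, ih]
      by_cases hs : s.1.length < L
      · have : (δ s a).1 = s.1 ++ [a] := by simp only [δ, dif_pos hs]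
        rw [this, List.append_assoc]
        rfl
      · have hs' : s.1.length = L := by have := s.2; omega
        have : (δ s a).1 = s.1 := by simp only [δ, dif_neg hs]
        have e1 : ∀ l' : List Bool, List.take L (s.1 ++ l') = s.1 := by
          intro l'
          rw [List.take_append_of_le_length hs'.ge, List.take_of_length_le s.2]
        rw [this, e1, e1]
  let σ' := σ × (Fin q × Bool)
  let t₀ : σ' := (s₀, (⟨0, hq⟩, false))
  let δ' : σ' → Bool → σ' := fun p a => (δ p.1 a, cnt q hq p.2 a)
  let out : σ' → Bool := fun s =>
    if s.1.1.length < L then decide (∃ G : FinGraph, encodeGraph G = s.1.1 ∧ P G)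
    else decide (B s.2.1)
  let f : FinGraph → Bool := fun G => out ((encodeGraph G).foldl δ' t₀)
  have hsplit : ∀ l : List Bool, l.foldl δ' t₀ =
      (l.foldl δ s₀, l.foldl (cnt q hq) (⟨0, hq⟩, false)) := fun l =>
    foldl_prod δ (cnt q hq) l _ _
  refine ⟨f, ⟨autoComputable t₀ δ' out encodeGraph f (fun _ => rfl)⟩, ?_⟩
  intro G hG
  have h1 : ((encodeGraph G).foldl δ s₀).1 = (encodeGraph G).take L := by
    rw [hfold]; rfl
  have h1' : ((encodeGraph G).foldl (cnt q hq) (⟨0, hq⟩, false)).1.1 = G.1 % q := by
    rw [encodeGraph_eq, cnt_run]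
    simp
  by_cases hN : G.1 < N
  · have h2 : (encodeGraph G).length < L := by
      rw [length_encodeGraph]
      have : G.1 * G.1 ≤ N * N := Nat.mul_le_mul hN.le hN.le
      simp only [L]; omega
    have h3 : ((encodeGraph G).foldl δ s₀).1 = encodeGraph G := by
      rw [h1, List.take_of_length_le h2.le]
    simp only [f, out, hsplit, h3, if_pos h2, decide_eq_true_eq]
    constructor
    · rintro ⟨G', h4, h5⟩
      rwa [← encodeGraph_injective h4]
    · intro h4; exact ⟨G, rfl, h4⟩
  · have h2 : ¬ ((encodeGraph G).take L).length < L := by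
      rw [List.length_take, length_encodeGraph]
      have : N * N ≤ G.1 * G.1 := Nat.mul_le_mul (by omega) (by omega)
      simp only [L]; omega
    simp only [f, out, hsplit, h1, h1', if_neg h2, decide_eq_true_eq]
    exact (h G hG (by omega)).symm

end Pool.Agent.H76.CW
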