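import Mathlib
import Pool.Agent.H76.CW.Pad
import Pool.Agent.H76.CW.PolyMod

/-!
The class of padded inner product graphs whose numbers of vertices encode their theories: it
is decidable.
-/

set_option autoImplicit false

namespace Pool.Agent.H76.CW

/-- The number whose first `j` binary digits are the truth values of the first `j` sentences. -/
def tb (m : ℕ) : ℕ → ℕ
  | 0 => 0
  | j + 1 => tb m j + (if ev m j [] [] = true then 2 ^ j else 0)

/-- The number of vertices of the `m`-th graph of the class. -/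
def nn (m : ℕ) : ℕ := 2 ^ (m + 1) + tb m m

lemma tb_lt (m j : ℕ) : tb m j < 2 ^ j := by
  induction j with
  | zero => simp [tb]
  | succ j ih =>
    rw [tb, pow_succ]
    split_ifs <;> omega

lemma tb_bit (m j i : ℕ) (hi : i < j) : (tb m j).testBit i = ev m i [] [] := by
  induction j with
  | zero => omega
  | succ j ih =>
    have hlt := tb_lt m j
    rcases Nat.lt_succ_iff_lt_or_eq.1 hi with h | h
    · rw [tb, ← ih h]
      split_ifs
      · rw [add_comm, Nat.testBit_two_pow_add_gt h]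
      · rfl
    · subst h
      rw [tb]
      have h0 := Nat.testBit_lt_two_pow hlt
      by_cases h1 : ev m i [] [] = true
      · rw [if_pos h1, add_comm, Nat.testBit_two_pow_add_eq, h0, h1]
        rfl
      · rw [if_neg h1, add_zero, h0]
        simpa using h1

lemma nn_bit (m i : ℕ) (hi : i < m) : (nn m).testBit i = ev m i [] [] := by
  unfold nn
  rw [Nat.testBit_two_pow_add_gt (by omega), tb_bit m m i hi]

lemma nn_lower (m : ℕ) : 2 ^ (m + 1) ≤ nn m := Nat.le_add_right _ _

lemma nn_upper (m : ℕ) : nn m < 3 * 2 ^ m := by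
  have := tb_lt m m
  unfold nn
  rw [pow_succ]
  omega

lemma nn_strictMono : StrictMono nn := by
  refine strictMono_nat_of_lt_succ fun m => ?_
  have h1 := nn_upper m
  have h2 := nn_lower (m + 1)
  have h3 : 2 ^ (m + 1 + 1) = 4 * 2 ^ m := by ring
  omega

lemma lt_nn (m : ℕ) : m < nn m := by
  have h1 : m < 2 ^ m := Nat.lt_two_pow_self
  have h2 := nn_lower m
  have h3 : 2 ^ (m + 1) = 2 * 2 ^ m := by ring
  omega

/-- The class of graphs: the isomorphic copies of the padded inner product graphs. -/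
def cls : Set FinGraph := {G | ∃ m, Nonempty (Pad m (nn m) ≃g G.2)}

lemma card_of_iso {m : ℕ} {G : FinGraph} (e : Pad m (nn m) ≃g G.2) : G.1 = nn m := by
  have := Fintype.card_congr e.toEquiv
  rw [Fintype.card_fin, Fintype.card_fin] at this
  exact this.symm

lemma cls_isoClosed : IsoClosed cls := by
  rintro G ⟨m, ⟨e⟩⟩ G' ⟨e'⟩
  exact ⟨m, ⟨e.trans e'⟩⟩

lemma cls_lower (G : FinGraph) (hG : G ∈ cls) : G.1 ≤ 27 * cliqueWidth G.2 + 3 := by
  obtain ⟨m, ⟨e⟩⟩ := hG
  have hcard := card_of_iso e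
  obtain ⟨n, G⟩ := G
  simp only at hcard e ⊢
  have hpos := lt_nn m
  have hup := nn_upper m
  obtain ⟨n', rfl⟩ : ∃ n', n = n' + 1 := ⟨n - 1, by omega⟩
  obtain ⟨ex, ⟨φ⟩⟩ := exists_kExpr G
  have h2 := nn_lower m
  have h3 : 2 ^ (m + 1) = 2 * 2 ^ m := by ring
  obtain ⟨ι⟩ := ip_embeds (m := m) (N := nn m) (by omega)
  have := ip_lower G ex φ (ι.trans e.toEmbedding)
  omega

lemma cls_not_logBounded : ¬ LogBounded cls := by
  rintro ⟨c, hc⟩
  -- compare with the exponential growth
  have hlim : ∀ᶠ m : ℕ in Filter.atTop, 27 * |c| * (m + 2) + 3 < 2 * 2 ^ m := by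
    have h1 := tendsto_pow_const_div_const_pow_of_one_lt 1 (by norm_num : (1 : ℝ) < 2)
    have h2 : ∀ᶠ m : ℕ in Filter.atTop, (m : ℝ) ^ 1 / 2 ^ m < 1 / (3 * 27 * |c| + 3) :=
      h1.eventually_lt_const (by positivity)
    have h3 : ∀ᶠ m : ℕ in Filter.atTop, 1 ≤ m := Filter.eventually_ge_atTop 1
    filter_upwards [h2, h3] with m hm hm1
    rw [pow_one, div_lt_div_iff₀ (by positivity) (by positivity)] at hm
    have hm1' : (1 : ℝ) ≤ m := by exact_mod_cast hm1
    have habs := abs_nonneg c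
    nlinarith
  obtain ⟨m, hm⟩ := hlim.exists
  let G : FinGraph := ⟨nn m, Pad m (nn m)⟩
  have hG : G ∈ cls := ⟨m, ⟨SimpleGraph.Iso.refl⟩⟩
  have h2 := cls_lower G hG
  have hlow := nn_lower m
  have hup := nn_upper m
  have hpos : 0 < 2 ^ m := by positivity
  have hpow : 2 ^ (m + 1) = 2 * 2 ^ m := by ring
  have h3 : 2 ≤ G.1 := by
    show 2 ≤ nn m
    omega
  have h4 := hc G hG h3
  have h5 : Real.log (G.1 : ℝ) ≤ m + 2 := by
    have e1 : ((G.1 : ℕ) : ℝ) ≤ 2 ^ (m + 2) := by
      have : nn m ≤ 2 ^ (m + 2) := by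
        have : 2 ^ (m + 2) = 4 * 2 ^ m := by ring
        omega
      exact_mod_cast this
    have e2 : (0 : ℝ) < ((G.1 : ℕ) : ℝ) := by
      have : 0 < G.1 := by omega
      exact_mod_cast this
    have e3 := Real.log_le_log e2 e1
    rw [Real.log_pow] at e3
    have hlog2 : Real.log 2 ≤ 1 := by
      have := Real.log_two_lt_d9
      linarith
    have e4 : (0 : ℝ) ≤ ((m + 2 : ℕ) : ℝ) := by positivity
    have e5 : ((m + 2 : ℕ) : ℝ) * Real.log 2 ≤ ((m + 2 : ℕ) : ℝ) := by nlinarith
    push_cast at e5 e3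
    linarith
  have h0 : 0 ≤ Real.log (G.1 : ℝ) := Real.log_natCast_nonneg _
  have h6 : c * Real.log (G.1 : ℝ) ≤ |c| * (m + 2) := by
    calc c * Real.log (G.1 : ℝ) ≤ |c| * Real.log (G.1 : ℝ) :=
          mul_le_mul_of_nonneg_right (le_abs_self c) h0
      _ ≤ |c| * (m + 2) := mul_le_mul_of_nonneg_left h5 (abs_nonneg c)
  have h7 : (G.1 : ℝ) ≤ 27 * (cliqueWidth G.2 : ℝ) + 3 := by exact_mod_cast h2
  have h8 : (2 * 2 ^ m : ℝ) ≤ ((G.1 : ℕ) : ℝ) := by
    have : 2 * 2 ^ m ≤ G.1 := by
      show 2 * 2 ^ m ≤ nn m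
      omega
    exact_mod_cast this
  nlinarith

lemma cls_poly (φ : MSO 0 0) : PolyTimeOn cls (fun G => Models G.2 φ) := by
  refine polyTimeOn_of_mod (nn (φ.code + φ.th + 1)) (2 ^ (φ.code + 1)) (by positivity)
    (fun r => r.testBit φ.code = true) ?_
  rintro G ⟨m, ⟨e⟩⟩ hN
  have hcard := card_of_iso e
  have h1 : φ.code + φ.th + 1 ≤ m := by
    rw [hcard] at hN
    exact nn_strictMono.le_iff_le.1 hN
  have h2 : φ.th < 2 ^ φ.th := Nat.lt_two_pow_self
  have h3 : 2 ^ φ.th ≤ 2 ^ m := Nat.pow_le_pow_right (by norm_num) (by omega)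
  have h4 := nn_lower m
  have h5 : 2 ^ (m + 1) = 2 * 2 ^ m := by ring
  have h6 : (G.1 % 2 ^ (φ.code + 1)).testBit φ.code = ev m φ.code [] [] := by
    rw [Nat.testBit_mod_two_pow, hcard, nn_bit m _ (by omega)]
    simp
  rw [h6, ← models_iso e φ,
    models_pad (m := m) (N := nn m) (N' := 2 ^ (m + 1)) φ (by omega) (by omega),
    ← ev_iff_models]

/-! ### Decidability -/

/-- The digit of `t` at position `i` in base `n`. -/
def dg (n t i : ℕ) : ℕ := t / n ^ i % n

/-- The encoding of the relabelled graph. -/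
def wd (m t : ℕ) : List Bool :=
  List.replicate (nn m) true ++ false ::
    (List.range (nn m)).flatMap fun i => (List.range (nn m)).map fun j =>
      adjb m (dg (nn m) t i) (dg (nn m) t j)

lemma finRange_flatMap {β : Type} (n : ℕ) (g : ℕ → List β) :
    ((List.finRange n).flatMap fun i : Fin n => g (i : ℕ)) = (List.range n).flatMap g := by
  rw [← List.map_coe_finRange_eq_range, List.flatMap_map]

lemma finRange_map {β : Type} (n : ℕ) (g : ℕ → β) :
    ((List.finRange n).map fun i : Fin n => g (i : ℕ)) = (List.range n).map g := by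
  rw [← List.map_coe_finRange_eq_range, List.map_map]
  rfl

lemma encode_relabel {m t : ℕ} (σ : Fin (nn m) → Fin (nn m)) (hσ : ∀ i, (σ i : ℕ) = dg (nn m) t i)
    (G : SimpleGraph (Fin (nn m))) (hG : ∀ i j, G.Adj i j ↔ (Pad m (nn m)).Adj (σ i) (σ j)) :
    encodeGraph ⟨nn m, G⟩ = wd m t := by
  classical
  rw [encodeGraph_eq]
  unfold rows wd
  congr 2
  simp only
  have h1 : ∀ i j : Fin (nn m), decide (G.Adj i j) =
      adjb m (dg (nn m) t i) (dg (nn m) t j) := by
    intro i j
    rw [Bool.eq_iff_iff, decide_eq_true_eq, hG, pad_adj, hσ, hσ]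
  have h2 : (fun i : Fin (nn m) => (List.finRange (nn m)).map fun j => decide (G.Adj i j)) =
      fun i : Fin (nn m) => (List.range (nn m)).map fun j =>
        adjb m (dg (nn m) t i) (dg (nn m) t j) := by
    funext i
    rw [← finRange_map]
    exact List.map_congr_left fun j _ => h1 i j
  rw [h2]
  exact finRange_flatMap (nn m) fun i => (List.range (nn m)).map fun j =>
        adjb m (dg (nn m) t i) (dg (nn m) t j)

/-- The relation that the digits of `t` are those of a permutation and the word is the code of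
the relabelled graph. -/
def Cert (m t : ℕ) (w : List Bool) : Prop :=
  (∀ i < nn m, ∀ j < nn m, dg (nn m) t i = dg (nn m) t j → i = j) ∧ w = wd m t

lemma mem_cls_iff (w : List Bool) :
    (∃ G ∈ cls, encodeGraph G = w) ↔
      ∃ m ∈ List.range (w.length + 1), ∃ t ∈ List.range (nn m ^ nn m), Cert m t w := by
  constructor
  · rintro ⟨⟨n, G⟩, ⟨m, ⟨e⟩⟩, rfl⟩
    have hcard := card_of_iso e
    simp only at hcard
    subst hcard
    have hlen := length_encodeGraph ⟨nn m, G⟩
    have hm := lt_nn m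
    refine ⟨m, List.mem_range.2 (by rw [hlen]; simp only; omega), ?_⟩
    let σ : Fin (nn m) → Fin (nn m) := fun i => e.symm i
    have hσ : Function.Injective σ := e.symm.injective
    let t := finFunctionFinEquiv σ
    have ht : ∀ i, (σ i : ℕ) = dg (nn m) t i := by
      intro i
      have h1 : finFunctionFinEquiv.symm t = σ := finFunctionFinEquiv.symm_apply_apply σ
      have h2 : (finFunctionFinEquiv.symm t i : ℕ) = dg (nn m) t i := rfl
      rw [← h2, h1]
    refine ⟨t, List.mem_range.2 t.2, ?_, ?_⟩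
    · intro i hi j hj hij
      have h1 := ht ⟨i, hi⟩
      have h2 := ht ⟨j, hj⟩
      have h3 : σ ⟨i, hi⟩ = σ ⟨j, hj⟩ := Fin.ext (by rw [h1, h2]; exact hij)
      exact Fin.mk.inj (hσ h3)
    · refine encode_relabel σ ht G ?_
      intro i j
      exact (e.symm.map_adj_iff (v := i) (w := j)).symm
  · rintro ⟨m, _, t, _, hinj, rfl⟩
    have hpos : 0 < nn m := lt_of_le_of_lt (Nat.zero_le _) (lt_nn m)
    let σ : Fin (nn m) → Fin (nn m) := fun i => ⟨dg (nn m) t i, Nat.mod_lt _ hpos⟩
    have hσ : Function.Injective σ := by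
      intro i j hij
      exact Fin.ext (hinj i i.2 j j.2 (Fin.mk.inj hij))
    let E : Fin (nn m) ≃ Fin (nn m) := Equiv.ofBijective σ (Finite.injective_iff_bijective.1 hσ)
    refine ⟨⟨nn m, (Pad m (nn m)).comap σ⟩, ⟨m, ⟨(⟨E, ?_⟩ :
      (Pad m (nn m)).comap σ ≃g Pad m (nn m)).symm⟩⟩, ?_⟩
    · intro i j
      exact Iff.rfl
    · exact encode_relabel σ (fun _ => rfl) _ fun i j => Iff.rfl

theorem primrec_tb : Primrec₂ tb := by
  have h : Primrec₂ fun (m n : ℕ) => (Nat.rec 0 (fun j r =>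
      r + (if ev m j [] [] = true then 2 ^ j else 0)) n : ℕ) := by
    refine Primrec.nat_rec (Primrec.const 0) (g := fun (m : ℕ) (p : ℕ × ℕ) =>
      p.2 + (if ev m p.1 [] [] = true then 2 ^ p.1 else 0)) ?_
    refine Primrec.nat_add.comp (Primrec.snd.comp Primrec.snd) (Primrec.ite ?_
      (primrec_two_pow (Primrec.fst.comp Primrec.snd)) (Primrec.const 0))
    refine Primrec.eq.comp ?_ (Primrec.const true)
    exact primrec_ev.comp (Primrec.fst.pair ((Primrec.fst.comp Primrec.snd).pair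
      ((Primrec.const []).pair (Primrec.const []))))
  refine h.of_eq fun m n => ?_
  induction n with
  | zero => rfl
  | succ n ih => simp only [tb, ← ih]

theorem primrec_nn : Primrec nn :=
  Primrec.nat_add.comp (primrec_two_pow Primrec.succ) (primrec_tb.comp Primrec.id Primrec.id)

theorem primrec_dg : Primrec fun p : ℕ × ℕ × ℕ => dg p.1 p.2.1 p.2.2 :=
  Primrec.nat_mod.comp
    (Primrec.nat_div.comp (Primrec.fst.comp Primrec.snd)
      (primrec_pow.comp Primrec.fst (Primrec.snd.comp Primrec.snd))) Primrec.fst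

lemma replicate_eq (n : ℕ) : List.replicate n true = (List.range n).map fun _ => true := by
  rw [List.map_const', List.length_range]

theorem primrec_wd : Primrec₂ wd := by
  have hn : Primrec fun p : ℕ × ℕ => nn p.1 := primrec_nn.comp Primrec.fst
  have h1 : Primrec fun p : ℕ × ℕ => List.replicate (nn p.1) true := by
    refine (Primrec.list_map (Primrec.list_range.comp hn)
      (g := fun (_ : ℕ × ℕ) (_ : ℕ) => true) (Primrec.const true)).of_eq fun p => ?_
    rw [replicate_eq]
  have hd : ∀ {α : Type} [Primcodable α] (f g h : α → ℕ), Primrec f → Primrec g → Primrec h →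
      Primrec fun a => dg (f a) (g a) (h a) := by
    intro α _ f g h hf hg hh
    exact primrec_dg.comp (hf.pair (hg.pair hh))
  have h2 : Primrec fun p : ℕ × ℕ => (List.range (nn p.1)).flatMap fun i =>
      (List.range (nn p.1)).map fun j => adjb p.1 (dg (nn p.1) p.2 i) (dg (nn p.1) p.2 j) := by
    refine Primrec.list_flatMap (Primrec.list_range.comp hn)
      (g := fun (p : ℕ × ℕ) (i : ℕ) => (List.range (nn p.1)).map fun j =>
        adjb p.1 (dg (nn p.1) p.2 i) (dg (nn p.1) p.2 j)) ?_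
    refine Primrec.list_map (Primrec.list_range.comp (hn.comp Primrec.fst))
      (g := fun (q : (ℕ × ℕ) × ℕ) (j : ℕ) =>
        adjb q.1.1 (dg (nn q.1.1) q.1.2 q.2) (dg (nn q.1.1) q.1.2 j)) ?_
    have hq1 : Primrec fun q : ((ℕ × ℕ) × ℕ) × ℕ => q.1.1.1 :=
      Primrec.fst.comp (Primrec.fst.comp Primrec.fst)
    have hq2 : Primrec fun q : ((ℕ × ℕ) × ℕ) × ℕ => q.1.1.2 :=
      Primrec.snd.comp (Primrec.fst.comp Primrec.fst)
    have hq3 : Primrec fun q : ((ℕ × ℕ) × ℕ) × ℕ => q.1.2 := Primrec.snd.comp Primrec.fst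
    have hq4 : Primrec fun q : ((ℕ × ℕ) × ℕ) × ℕ => q.2 := Primrec.snd
    exact primrec_adjb.comp (hq1.pair ((hd _ _ _ (primrec_nn.comp hq1) hq2 hq3).pair
      (hd _ _ _ (primrec_nn.comp hq1) hq2 hq4)))
  exact Primrec.list_append.comp h1 (Primrec.list_cons.comp (Primrec.const false) h2)

theorem primrec_inj : PrimrecPred fun p : ℕ × ℕ =>
    ∀ i < nn p.1, ∀ j < nn p.1, dg (nn p.1) p.2 i = dg (nn p.1) p.2 j → i = j := by
  classical
  -- the innermost relation
  have hR : PrimrecRel fun (j : ℕ) (q : (ℕ × ℕ) × ℕ) =>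
      dg (nn q.1.1) q.1.2 q.2 = dg (nn q.1.1) q.1.2 j → q.2 = j := by
    have hj : Primrec fun r : ℕ × ((ℕ × ℕ) × ℕ) => r.1 := Primrec.fst
    have hi : Primrec fun r : ℕ × ((ℕ × ℕ) × ℕ) => r.2.2 := Primrec.snd.comp Primrec.snd
    have hm : Primrec fun r : ℕ × ((ℕ × ℕ) × ℕ) => r.2.1.1 :=
      Primrec.fst.comp (Primrec.fst.comp Primrec.snd)
    have ht : Primrec fun r : ℕ × ((ℕ × ℕ) × ℕ) => r.2.1.2 :=
      Primrec.snd.comp (Primrec.fst.comp Primrec.snd)
    have h1 : PrimrecPred fun r : ℕ × ((ℕ × ℕ) × ℕ) =>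
        dg (nn r.2.1.1) r.2.1.2 r.2.2 = dg (nn r.2.1.1) r.2.1.2 r.1 :=
      Primrec.eq.comp (primrec_dg.comp ((primrec_nn.comp hm).pair (ht.pair hi)))
        (primrec_dg.comp ((primrec_nn.comp hm).pair (ht.pair hj)))
    have h2 : PrimrecPred fun r : ℕ × ((ℕ × ℕ) × ℕ) => r.2.2 = r.1 := Primrec.eq.comp hi hj
    exact (h1.not.or h2).of_eq fun r => by tauto
  have hR2 : PrimrecRel fun (i : ℕ) (p : ℕ × ℕ) => ∀ j ∈ List.range (nn p.1),
      dg (nn p.1) p.2 i = dg (nn p.1) p.2 j → i = j :=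
    hR.forall_mem_list.comp (Primrec.list_range.comp (primrec_nn.comp
      (Primrec.fst.comp Primrec.snd))) (Primrec.snd.pair Primrec.fst)
  have hR3 : PrimrecPred fun p : ℕ × ℕ => ∀ i ∈ List.range (nn p.1),
      ∀ j ∈ List.range (nn p.1), dg (nn p.1) p.2 i = dg (nn p.1) p.2 j → i = j :=
    hR2.forall_mem_list.comp (Primrec.list_range.comp (primrec_nn.comp Primrec.fst)) Primrec.id
  refine hR3.of_eq fun p => ?_
  simp only [List.mem_range]

theorem cls_computable : ComputablePred fun w : List Bool => ∃ G ∈ cls, encodeGraph G = w := by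
  have h1 : PrimrecRel fun (t : ℕ) (q : ℕ × List Bool) => Cert q.1 t q.2 := by
    have ht : Primrec fun r : ℕ × (ℕ × List Bool) => r.1 := Primrec.fst
    have hm : Primrec fun r : ℕ × (ℕ × List Bool) => r.2.1 := Primrec.fst.comp Primrec.snd
    have hw : Primrec fun r : ℕ × (ℕ × List Bool) => r.2.2 := Primrec.snd.comp Primrec.snd
    exact (primrec_inj.comp (hm.pair ht)).and (Primrec.eq.comp hw (primrec_wd.comp hm ht))
  have h2 : PrimrecRel fun (m : ℕ) (w : List Bool) =>
      ∃ t ∈ List.range (nn m ^ nn m), Cert m t w :=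
    h1.exists_mem_list.comp (Primrec.list_range.comp (primrec_pow.comp
      (primrec_nn.comp Primrec.fst) (primrec_nn.comp Primrec.fst))) Primrec.id
  have h3 : PrimrecPred fun w : List Bool => ∃ m ∈ List.range (w.length + 1),
      ∃ t ∈ List.range (nn m ^ nn m), Cert m t w :=
    h2.exists_mem_list.comp (Primrec.list_range.comp (Primrec.succ.comp Primrec.list_length))
      Primrec.id
  exact (h3.of_eq fun w => (mem_cls_iff w).symm).computablePred

end Pool.Agent.H76.CW
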